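import Mathlib
import Pool.Agent.Lib_helper26.SCH.Lay
import Pool.Agent.Lib_helper26.SCH.Step
import Pool.Agent.Lib_helper22.SCHD.Bud

/-!
# The level functional: certificates
-/

set_option autoImplicit false
set_option linter.unusedSectionVars false

namespace Pool.Agent.SCH

open Finset Pool.Agent.GL Pool.Agent.Lib_helper42.RS Pool.Agent.Lib_helper13.PL

universe u

/-- linear lower bound for the level functional -/
theorem cert {m : ℕ} [NeZero m] (N : ZMod m → ℝ) (l ρ α : ℝ) (p : ZMod m)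
    (lam mu er c : ZMod m → ℝ)
    (h0 : ∀ j, 0 ≤ N j) (h1 : ∀ j, N j ≤ l)
    (hlam0 : ∀ j, 0 ≤ lam j) (hlam1 : ∀ j, lam j ≤ 1) (hmu0 : ∀ j, 0 ≤ mu j)
    (hmu1 : ∀ j, mu j ≤ 1) (her : ∀ j, 0 ≤ er j)
    (hc : ∀ j, 0 ≤ 2 * (lam j + lam (j - p)) + (mu j + mu (p - j)) - α + ρ * c j + er j) :
    α * ∑ j, N j - ρ * ∑ j, N j * c j - l * (∑ j, er j + 2 * ∑ j, lam j + ∑ j, mu j) ≤
      2 * ∑ j, max 0 (N j + N (j + p) - l) + ∑ j, max 0 (N j + N (p - j) - l) := by
  have hmx : ∀ (t w : ℝ), 0 ≤ w → w ≤ 1 → w * t ≤ max 0 t := by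
    intro t w hw0 hw1
    rcases le_total t 0 with h | h
    · rw [max_eq_left h]
      exact mul_nonpos_of_nonneg_of_nonpos hw0 h
    · rw [max_eq_right h]
      calc w * t ≤ 1 * t := mul_le_mul_of_nonneg_right hw1 h
        _ = t := one_mul t
  have a1 : ∑ j, lam j * (N j + N (j + p) - l) ≤ ∑ j, max 0 (N j + N (j + p) - l) :=
    Finset.sum_le_sum fun j _ => hmx _ _ (hlam0 j) (hlam1 j)
  have a2 : ∑ j, mu j * (N j + N (p - j) - l) ≤ ∑ j, max 0 (N j + N (p - j) - l) :=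
    Finset.sum_le_sum fun j _ => hmx _ _ (hmu0 j) (hmu1 j)
  have b1 : ∑ j, lam j * N (j + p) = ∑ j, lam (j - p) * N j := by
    refine Finset.sum_equiv (Equiv.addRight p) (by simp) ?_
    intro j _
    simp
  have b2 : ∑ j, mu j * N (p - j) = ∑ j, mu (p - j) * N j := by
    refine Finset.sum_equiv (Equiv.subLeft p) (by simp) ?_
    intro j _
    simp
  have c1 : ∑ j, lam j * (N j + N (j + p) - l) =
      ∑ j, (lam j + lam (j - p)) * N j - l * ∑ j, lam j := by
    have e : ∀ j, lam j * (N j + N (j + p) - l) = lam j * N j + lam j * N (j + p) - l * lam j :=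
      fun j => by ring
    rw [Finset.sum_congr rfl fun j _ => e j, Finset.sum_sub_distrib, Finset.sum_add_distrib, b1,
      ← Finset.mul_sum, ← Finset.sum_add_distrib]
    congr 1
    exact Finset.sum_congr rfl fun j _ => by ring
  have c2 : ∑ j, mu j * (N j + N (p - j) - l) =
      ∑ j, (mu j + mu (p - j)) * N j - l * ∑ j, mu j := by
    have e : ∀ j, mu j * (N j + N (p - j) - l) = mu j * N j + mu j * N (p - j) - l * mu j :=
      fun j => by ring
    rw [Finset.sum_congr rfl fun j _ => e j, Finset.sum_sub_distrib, Finset.sum_add_distrib, b2,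
      ← Finset.mul_sum, ← Finset.sum_add_distrib]
    congr 1
    exact Finset.sum_congr rfl fun j _ => by ring
  have d : 0 ≤ ∑ j, ((2 * (lam j + lam (j - p)) + (mu j + mu (p - j)) - α + ρ * c j + er j) * N j +
      er j * (l - N j)) :=
    Finset.sum_nonneg fun j _ => add_nonneg (mul_nonneg (hc j) (h0 j))
      (mul_nonneg (her j) (by linarith [h1 j]))
  have e : ∑ j, ((2 * (lam j + lam (j - p)) + (mu j + mu (p - j)) - α + ρ * c j + er j) * N j +
      er j * (l - N j)) = 2 * ∑ j, (lam j + lam (j - p)) * N j + ∑ j, (mu j + mu (p - j)) * N j -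
      α * ∑ j, N j + ρ * ∑ j, N j * c j + l * ∑ j, er j := by
    rw [Finset.mul_sum, Finset.mul_sum, Finset.mul_sum, Finset.mul_sum, ← Finset.sum_add_distrib,
      ← Finset.sum_sub_distrib, ← Finset.sum_add_distrib, ← Finset.sum_add_distrib]
    exact Finset.sum_congr rfl fun j _ => by ring
  rw [e] at d
  rw [c1] at a1
  rw [c2] at a2
  linarith

section
variable {G : Type u} [AddCommGroup G] [Fintype G] [DecidableEq G]
variable {m : ℕ} [NeZero m]

/-- differences, in terms of the levels -/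
lemma lev_minus (φ : G →+ ZMod m) (hφ : Function.Surjective φ) (A : Finset G) (y : G) :
    ∑ j, max 0 ((lv φ A j : ℤ) + lv φ A (j + φ y) - Nat.card φ.ker) ≤
      ((A.filter (fun z => z + y ∈ A)).card : ℤ) := by
  have h1 := rr_lv φ hφ A y
  have h2 : rr A y = ((A.filter (fun z => z + y ∈ A)).card : ℤ) := by
    unfold rr ind
    rw [Finset.card_filter]
    push_cast
    rw [← Finset.sum_filter_add_sum_filter_not univ (fun z => z ∈ A)]
    have e1 : ∑ z ∈ univ.filter (fun z => ¬ z ∈ A), (if z ∈ A then (1:ℤ) else 0) *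
        (if z + y ∈ A then 1 else 0) = 0 := by
      refine Finset.sum_eq_zero fun z hz => ?_
      rw [if_neg (Finset.mem_filter.mp hz).2, zero_mul]
    rw [e1, add_zero]
    have e2 : univ.filter (fun z => z ∈ A) = A := by ext z; simp
    rw [e2]
    exact Finset.sum_congr rfl fun z hz => by rw [if_pos hz, one_mul]
  rw [← h2]; exact h1

/-- sums, in terms of the levels -/
lemma lev_plus (φ : G →+ ZMod m) (hφ : Function.Surjective φ) (A : Finset G) (y : G) :
    ∑ j, max 0 ((lv φ A j : ℤ) + lv φ A (φ y - j) - Nat.card φ.ker) ≤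
      ((A.filter (fun z => y - z ∈ A)).card : ℤ) := by
  have h2 : ((A.filter (fun z => y - z ∈ A)).card : ℤ) = ∑ z, ind A z * ind A (y - z) := by
    unfold ind
    rw [Finset.card_filter]
    push_cast
    rw [← Finset.sum_filter_add_sum_filter_not univ (fun z => z ∈ A)]
    have e1 : ∑ z ∈ univ.filter (fun z => ¬ z ∈ A), (if z ∈ A then (1:ℤ) else 0) *
        (if y - z ∈ A then 1 else 0) = 0 := by
      refine Finset.sum_eq_zero fun z hz => ?_
      rw [if_neg (Finset.mem_filter.mp hz).2, zero_mul]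
    rw [e1, add_zero]
    have e2 : univ.filter (fun z => z ∈ A) = A := by ext z; simp
    rw [e2]
    exact Finset.sum_congr rfl fun z hz => by rw [if_pos hz, one_mul]
  rw [h2, sum_fibre φ]
  refine Finset.sum_le_sum fun j _ => ?_
  apply max_le
  · exact Finset.sum_nonneg fun _ _ => mul_nonneg (ind_nonneg _ _) (ind_nonneg _ _)
  · have h3 : ∑ x ∈ univ.filter (fun x => φ x = j), (ind A x + ind A (y - x) - 1) ≤
        ∑ x ∈ univ.filter (fun x => φ x = j), ind A x * ind A (y - x) := by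
      refine Finset.sum_le_sum fun z _ => ?_
      unfold ind
      split_ifs <;> norm_num
    have h4 : ∑ x ∈ univ.filter (fun x => φ x = j), ind A (y - x) = (lv φ A (φ y - j) : ℤ) := by
      rw [← sum_ind_fib]
      refine Finset.sum_equiv (Equiv.subLeft y) ?_ ?_
      · intro x
        simp only [Finset.mem_filter, Finset.mem_univ, true_and, Equiv.subLeft_apply, map_sub]
        constructor
        · rintro rfl; rfl
        · intro h; exact sub_right_injective h
      · intro x _; rfl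
    rw [Finset.sum_sub_distrib, Finset.sum_add_distrib, sum_ind_fib, h4,
      Finset.sum_const, nsmul_eq_mul, mul_one, fibre_card φ hφ] at h3
    exact h3

/-- the real part in terms of the levels of the complement -/
lemma re_levels {χ : AddChar G ℂ} {φ : G →+ ZMod m} (hm : 2 ≤ m) (h : Std χ φ)
    (hφ : Function.Surjective φ) (B : Finset G) :
    (hat B χ).re = -∑ j, (lv φ Bᶜ j : ℝ) * Real.cos (2 * Real.pi * (j.valMinAbs.natAbs : ℝ) / m) := by
  have h0 := D1X.cos_zero_sum hm h hφ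
  rw [hat_re_eq B h]
  have h1 := Finset.sum_add_sum_compl B (fun x => Real.cos (2 * Real.pi * (φ x).valMinAbs / m))
  rw [h0] at h1
  have h2 : ∑ x ∈ Bᶜ, Real.cos (2 * Real.pi * (φ x).valMinAbs / m) =
      ∑ j, (lv φ Bᶜ j : ℝ) * Real.cos (2 * Real.pi * (j.valMinAbs.natAbs : ℝ) / m) := by
    rw [← Finset.sum_fiberwise_of_maps_to (s := Bᶜ) (t := univ) (g := φ) (fun _ _ => mem_univ _)]
    refine Finset.sum_congr rfl fun j _ => ?_
    have h3 : ∀ x ∈ Bᶜ.filter (fun x => φ x = j),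
        Real.cos (2 * Real.pi * (φ x).valMinAbs / m) =
          Real.cos (2 * Real.pi * (j.valMinAbs.natAbs : ℝ) / m) := by
      intro x hx
      rw [(Finset.mem_filter.mp hx).2]
      rw [← Real.cos_abs (2 * Real.pi * j.valMinAbs / m), abs_div, abs_mul,
        abs_of_pos (by positivity : (0:ℝ) < 2 * Real.pi), Nat.abs_cast, Nat.cast_natAbs]
      push_cast
      rfl
    rw [Finset.sum_congr rfl h3, Finset.sum_const, nsmul_eq_mul]
    rfl
  linarith

/-- the budget of an element outside `B`, from a bound for the slope -/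
theorem budget_slope {B : Finset G} (hmax : IsMaxi B) (h0 : (0 : G) ∈ B) {D : ℤ}
    (hD : fG G (B.card + 1) ≤ fG G B.card + D) {v : G} (hv : v ∉ B) :
    4 * (2 * ((Bᶜ.filter (fun x => x + v ∈ Bᶜ)).card : ℤ) +
        ((Bᶜ.filter (fun x => v - x ∈ Bᶜ)).card : ℤ)) ≤
      12 * (Bᶜ.card : ℤ) - 6 * B.card - 5 + D := by
  have hv0 : v ≠ 0 := fun h => hv (h ▸ h0)
  have h1 := kkt_notMem (fG G) B hmax v hv hv0
  rw [DB_eq] at h1
  have e1 : iv B 0 = 1 := by unfold iv; rw [if_pos h0]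
  have e2 := iv_nonneg B (v + v)
  rw [e1] at h1
  have h2 := D1X.rm_eq B v
  have h3 := D1X.rp_eq B v
  linarith

/-- `0 ∈ B` -/
theorem zero_mem_slope {B : Finset G} (hmax : IsMaxi B) {D : ℤ}
    (hD : fG G (B.card + 1) ≤ fG G B.card + D)
    (hlt : D + 4 * (Bᶜ.card : ℤ) < 6 * B.card + 1) : (0 : G) ∈ B := by
  by_contra h0
  have h1 := kkt_zero (fG G) B hmax h0
  rw [DB_eq] at h1
  have e1 : dlt B 0 = 0 := by
    unfold dlt
    rw [Finset.filter_false_of_mem]
    · simp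
    · intro z hz; simp [hz]
  have h3 := D1X.rp_eq B 0
  have h4 : (0:ℤ) ≤ ((Bᶜ.filter (fun x => 0 - x ∈ Bᶜ)).card : ℤ) := by positivity
  rw [e1] at h1
  linarith

/-- lower bound for the real part near `2/3` -/
theorem re_near {F R l t K u b a n : ℝ} (hl : 0 < l) (ht : 0 ≤ t) (htl : t ≤ l) (hK : 1 ≤ K)
    (hu : 10 ≤ u) (huK : u * (2 * K + 1) ≤ 50 * (K - 1)) (hb : b = 2 * K * l - t)
    (ha : a = K * l + t) (hn : n = 3 * K * l) (hF : -(t * (4 * l - 5 * t)) ≤ F)
    (hfou : n * (F + 3 * b ^ 2) ≤ 4 * b ^ 3 + 4 * R * (n * b - b ^ 2)) :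
    10 * K * l + u * t ≤ 20 * R := by
  by_contra hc
  push Not at hc
  have hKl : l ≤ K * l := by nlinarith
  have hb0 : 0 < b := by rw [hb]; nlinarith
  have ha0 : 0 < a := by rw [ha]; nlinarith
  have hn0 : 0 < n := by rw [hn]; nlinarith
  have e1 : n * b - b ^ 2 = b * a := by rw [hb, ha, hn]; ring
  rw [e1] at hfou
  have h1 : 20 * R * (4 * (b * a)) < (10 * K * l + u * t) * (4 * (b * a)) :=
    mul_lt_mul_of_pos_right hc (by positivity)
  have h2 : n * (-(t * (4 * l - 5 * t)) + 3 * b ^ 2) ≤ n * (F + 3 * b ^ 2) :=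
    mul_le_mul_of_nonneg_left (by linarith) hn0.le
  have h3 : (10 * K * l + u * t) * (4 * (b * a)) ≤
      20 * (n * (-(t * (4 * l - 5 * t)) + 3 * b ^ 2) - 4 * b ^ 3) := by
    have e2 : 20 * (n * (-(t * (4 * l - 5 * t)) + 3 * b ^ 2) - 4 * b ^ 3) -
        (10 * K * l + u * t) * (4 * (b * a)) =
        t * (8 * K * (25 * K - 30 - K * u) * l ^ 2 - 4 * K * (u - 10) * l * t +
          (80 + 4 * u) * t ^ 2) := by
      rw [hb, ha, hn]; ring
    have h4 : 0 ≤ 8 * K * (25 * K - 30 - K * u) * l ^ 2 - 4 * K * (u - 10) * l * t +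
          (80 + 4 * u) * t ^ 2 := by
      have h5 : 4 * K * (u - 10) ≤ 8 * K * (25 * K - 30 - K * u) := by
        have : u - 10 ≤ 2 * (25 * K - 30 - K * u) := by nlinarith
        nlinarith
      have h6 : 4 * K * (u - 10) * (l * t) ≤ 4 * K * (u - 10) * (l * l) := by
        apply mul_le_mul_of_nonneg_left (mul_le_mul_of_nonneg_left htl hl.le)
        have : 0 ≤ u - 10 := by linarith
        positivity
      have h7 : 4 * K * (u - 10) * (l * l) ≤ 8 * K * (25 * K - 30 - K * u) * (l * l) :=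
        mul_le_mul_of_nonneg_right h5 (by positivity)
      have h8 : 0 ≤ (80 + 4 * u) * t ^ 2 := mul_nonneg (by linarith) (sq_nonneg t)
      nlinarith
    have h9 := mul_nonneg ht h4
    linarith
  linarith

/-- scaled certificate -/
theorem near_cert {D a r S : ℤ} {L M E w : ZMod m → ℤ} {p : ZMod m} {c : ZMod m → ℝ}
    (hD : 0 < D)
    (hdec : ∀ j : ZMod m, 0 ≤ L j ∧ L j ≤ D ∧ 0 ≤ M j ∧ M j ≤ D ∧ 0 ≤ E j ∧
      0 ≤ 2 * (L j + L (j - p)) + (M j + M (p - j)) - a + w j + E j)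
    (hS : ∑ j, E j + 2 * ∑ j, L j + ∑ j, M j = S)
    (hw : ∀ j, (w j : ℝ) ≤ r * c j)
    (N : ZMod m → ℝ) (l : ℝ) (h0 : ∀ j, 0 ≤ N j) (h1 : ∀ j, N j ≤ l) :
    a * ∑ j, N j - r * ∑ j, N j * c j - l * S ≤
      D * (2 * ∑ j, max 0 (N j + N (j + p) - l) + ∑ j, max 0 (N j + N (p - j) - l)) := by
  have hDr : (0:ℝ) < D := by exact_mod_cast hD
  have h := cert N l (r / D) (a / D) p (fun j => (L j : ℝ) / D) (fun j => (M j : ℝ) / D)
    (fun j => (E j : ℝ) / D) c h0 h1
    (fun j => div_nonneg (by exact_mod_cast (hdec j).1) hDr.le)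
    (fun j => by rw [div_le_one hDr]; exact_mod_cast (hdec j).2.1)
    (fun j => div_nonneg (by exact_mod_cast (hdec j).2.2.1) hDr.le)
    (fun j => by rw [div_le_one hDr]; exact_mod_cast (hdec j).2.2.2.1)
    (fun j => div_nonneg (by exact_mod_cast (hdec j).2.2.2.2.1) hDr.le)
    (fun j => by
      have h2 := (hdec j).2.2.2.2.2
      have h3 := hw j
      have h4 : (0:ℝ) ≤ 2 * (L j + L (j - p)) + (M j + M (p - j)) - a + w j + E j := by
        exact_mod_cast h2
      have e : 2 * ((L j : ℝ) / D + (L (j - p) : ℝ) / D) + ((M j : ℝ) / D + (M (p - j) : ℝ) / D) -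
          a / D + r / D * c j + (E j : ℝ) / D =
          (2 * (L j + L (j - p)) + (M j + M (p - j)) - a + r * c j + E j) / D := by
        field_simp
      rw [e]
      exact div_nonneg (by linarith) hDr.le)
  rw [← Finset.sum_div, ← Finset.sum_div, ← Finset.sum_div] at h
  have h5 := mul_le_mul_of_nonneg_left h hDr.le
  refine le_trans (le_of_eq ?_) h5
  have hSr : (S : ℝ) = ∑ j, (E j : ℝ) + 2 * ∑ j, (L j : ℝ) + ∑ j, (M j : ℝ) := by
    rw [← hS]; push_cast; rfl
  rw [hSr]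
  field_simp

lemma cosm_neg (j : ZMod m) : Real.cos (2 * Real.pi * (((-j).valMinAbs.natAbs : ℕ) : ℝ) / m) =
    Real.cos (2 * Real.pi * (j.valMinAbs.natAbs : ℝ) / m) := by
  rw [ZMod.natAbs_valMinAbs_neg]

/-- **one level near `2/3`** -/
theorem near_level {B : Finset G} {χ : AddChar G ℂ} {φ : G →+ ZMod m} (hm : 2 ≤ m)
    (hstd : Std χ φ) (hsurj : Function.Surjective φ) (hmax : IsMaxi B)
    (hbig : fG G B.card < GL.FF B)
    (hfou : (Fintype.card G : ℝ) * (((GL.FF B : ℤ) : ℝ) + 3 * (B.card : ℝ) ^ 2) ≤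
      4 * (B.card : ℝ) ^ 3 +
        4 * (hat B χ).re * ((Fintype.card G : ℝ) * B.card - (B.card : ℝ) ^ 2))
    {K t : ℕ} (hmK : m = 3 * K) (hK : 1 ≤ K) (hb : B.card + t = 2 * K * Nat.card φ.ker)
    (ht : 5 * t ≤ Nat.card φ.ker)
    (hslope : fG G (B.card + 1) ≤ fG G B.card + (4 * (Nat.card φ.ker : ℤ) + 5))
    {D a r S u : ℤ} {L M E w : ZMod m → ℤ} {p : ZMod m} (hD : 0 < D) (hr : 0 ≤ r)
    (hu : 10 ≤ u) (huK : u * (2 * K + 1) ≤ 50 * (K - 1))
    (hdec : ∀ j : ZMod m, 0 ≤ L j ∧ L j ≤ D ∧ 0 ≤ M j ∧ M j ≤ D ∧ 0 ≤ E j ∧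
      0 ≤ 2 * (L j + L (j - p)) + (M j + M (p - j)) - a + w j + E j)
    (hS : ∑ j, E j + 2 * ∑ j, L j + ∑ j, M j = S)
    (hw : ∀ j : ZMod m, (w j : ℝ) ≤ r * Real.cos (2 * Real.pi * (j.valMinAbs.natAbs : ℝ) / m))
    (hA : 2 * D < 2 * a * K + r * K - 2 * S) (hB : 90 * D ≤ 20 * a + r * u)
    {x : G} (hx : x ∉ B) (hp : φ x = p ∨ φ x = -p) : False := by
  set l := Nat.card φ.ker with hl
  have hlpos : 0 < l := Nat.card_pos
  have hn : Fintype.card G = m * l := card_ker_mul φ hsurj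
  have hlr : (0:ℝ) < l := by exact_mod_cast hlpos
  have hbz : (B.card : ℤ) + t = 2 * K * l := by exact_mod_cast hb
  have hnz : ((Fintype.card G : ℕ) : ℤ) = 3 * K * l := by rw [hn, hmK]; push_cast; ring
  have hAz : ((Bᶜ).card : ℤ) = K * l + t := by
    rw [card_compl_int B, hnz]; linarith
  have htz : 5 * (t : ℤ) ≤ l := by exact_mod_cast ht
  have hKz : (1:ℤ) ≤ K := by exact_mod_cast hK
  have hlz : (0:ℤ) < l := by exact_mod_cast hlpos
  have htz0 : (0:ℤ) ≤ t := by positivity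
  have hKl : (l:ℤ) ≤ K * l := by nlinarith
  -- the witness
  have hwit : -((t:ℤ) * (4 * l - 5 * t)) ≤ fG G B.card := by
    apply le_fG
    refine Or.inr ⟨φ.ker, K - 1, l - t, Nat.sub_le _ _, ?_, Or.inr ⟨?_, ?_⟩⟩
    · rw [← hl]
      push_cast [show t ≤ l by omega]
      ring
    · rw [← hl]
      obtain ⟨K', rfl⟩ : ∃ K', K = K' + 1 := ⟨K - 1, by omega⟩
      zify [show t ≤ l by omega]
      push_cast at hbz ⊢
      linarith
    · exact Alive.mono (ker_alive φ hsurj) (by omega)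
  -- the real part
  have hF : -((t:ℝ) * (4 * l - 5 * t)) ≤ ((GL.FF B : ℤ) : ℝ) := by
    have : -((t:ℤ) * (4 * l - 5 * t)) ≤ GL.FF B := by linarith
    exact_mod_cast this
  have hre := re_near (F := ((GL.FF B : ℤ) : ℝ)) (R := (hat B χ).re) (l := (l:ℝ)) (t := (t:ℝ))
    (K := (K:ℝ)) (u := (u:ℝ)) (b := (B.card:ℝ)) (a := (((Bᶜ).card : ℕ) : ℝ))
    (n := (Fintype.card G : ℝ)) hlr (by positivity)
    (by have : t ≤ l := by omega
        exact_mod_cast this) (by exact_mod_cast hK) (by exact_mod_cast hu)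
    (by exact_mod_cast huK)
    (by have : (B.card : ℝ) + t = 2 * K * l := by exact_mod_cast hbz
        linarith)
    (by exact_mod_cast hAz) (by exact_mod_cast hnz) hF hfou
  -- `0 ∈ B` and the budget
  have h0 : (0 : G) ∈ B := by
    apply zero_mem_slope hmax hslope
    rw [hAz]
    nlinarith
  have hbud := budget_slope hmax h0 hslope hx
  rw [hAz] at hbud
  have hm1 := lev_minus φ hsurj Bᶜ x
  have hp1 := lev_plus φ hsurj Bᶜ x
  rw [← hl] at hm1 hp1
  set r1 : ℤ := ((Bᶜ.filter (fun z => z + x ∈ Bᶜ)).card : ℤ) with hr1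
  set r2 : ℤ := ((Bᶜ.filter (fun z => x - z ∈ Bᶜ)).card : ℤ) with hr2
  have hbud2 : 4 * ((2 * (r1 : ℝ)) + r2) ≤ 4 * l + 18 * t := by
    have : 4 * (2 * r1 + r2) ≤ 4 * (l:ℤ) + 18 * t := by linarith
    exact_mod_cast this
  -- the levels
  have hcase : ∃ N : ZMod m → ℝ, (∀ j, 0 ≤ N j) ∧ (∀ j, N j ≤ l) ∧
      ∑ j, N j = (K * l + t : ℝ) ∧
      (hat B χ).re = -∑ j, N j * Real.cos (2 * Real.pi * (j.valMinAbs.natAbs : ℝ) / m) ∧
      ∑ j, max 0 (N j + N (j + p) - l) ≤ (r1 : ℝ) ∧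
      ∑ j, max 0 (N j + N (p - j) - l) ≤ (r2 : ℝ) := by
    have hsum : ∑ j, (lv φ Bᶜ j : ℝ) = (K * l + t : ℝ) := by
      have h := sum_lv φ Bᶜ
      rw [hAz] at h
      exact_mod_cast h
    have hre0 := re_levels hm hstd hsurj B
    have hm2 : ∑ j, max 0 ((lv φ Bᶜ j : ℝ) + lv φ Bᶜ (j + φ x) - l) ≤ (r1 : ℝ) := by
      exact_mod_cast hm1
    have hp2 : ∑ j, max 0 ((lv φ Bᶜ j : ℝ) + lv φ Bᶜ (φ x - j) - l) ≤ (r2 : ℝ) := by
      exact_mod_cast hp1
    have hle : ∀ j, (lv φ Bᶜ j : ℝ) ≤ l := by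
      intro j
      have h := lv_le φ hsurj Bᶜ j
      rw [← hl] at h
      exact_mod_cast h
    rcases hp with hp | hp
    · refine ⟨fun j => (lv φ Bᶜ j : ℝ), fun j => by positivity, hle, hsum, hre0, ?_, ?_⟩
      · rw [hp] at hm2; exact hm2
      · rw [hp] at hp2; exact hp2
    · refine ⟨fun j => (lv φ Bᶜ (-j) : ℝ), fun j => by positivity, fun j => hle (-j),
        ?_, ?_, ?_, ?_⟩
      · rw [← hsum]
        exact Equiv.sum_comp (Equiv.neg (ZMod m)) (fun j => (lv φ Bᶜ j : ℝ))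
      · rw [hre0]
        congr 1
        rw [← Equiv.sum_comp (Equiv.neg (ZMod m))]
        refine Finset.sum_congr rfl fun j _ => ?_
        rw [Equiv.neg_apply, cosm_neg]
      · rw [hp] at hm2
        refine le_trans (le_of_eq ?_) hm2
        refine Finset.sum_equiv (Equiv.neg (ZMod m)) (by simp) fun j _ => ?_
        have e1 : -(j + p) = -j + -p := by ring
        show max 0 ((lv φ Bᶜ (-j) : ℝ) + lv φ Bᶜ (-(j + p)) - l) =
          max 0 ((lv φ Bᶜ (-j) : ℝ) + lv φ Bᶜ (-j + -p) - l)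
        rw [e1]
      · rw [hp] at hp2
        refine le_trans (le_of_eq ?_) hp2
        refine Finset.sum_equiv (Equiv.neg (ZMod m)) (by simp) fun j _ => ?_
        have e1 : -(p - j) = -p - -j := by ring
        show max 0 ((lv φ Bᶜ (-j) : ℝ) + lv φ Bᶜ (-(p - j)) - l) =
          max 0 ((lv φ Bᶜ (-j) : ℝ) + lv φ Bᶜ (-p - -j) - l)
        rw [e1]
  obtain ⟨N, hN0, hN1, hNs, hNre, hNm, hNp⟩ := hcase
  have hc := near_cert hD hdec hS hw N l hN0 hN1
  have hrr : (0:ℝ) ≤ r := by exact_mod_cast hr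
  have hDr : (0:ℝ) < D := by exact_mod_cast hD
  have hAr : 2 * (D:ℝ) < 2 * a * K + r * K - 2 * S := by exact_mod_cast hA
  have hBr : 90 * (D:ℝ) ≤ 20 * a + r * u := by exact_mod_cast hB
  have k1 : (D:ℝ) * (2 * ∑ j, max 0 (N j + N (j + p) - l) + ∑ j, max 0 (N j + N (p - j) - l)) ≤
      D * (2 * (r1:ℝ) + r2) := mul_le_mul_of_nonneg_left (by linarith) hDr.le
  have k2 : (D:ℝ) * (4 * (2 * (r1:ℝ) + r2)) ≤ D * (4 * l + 18 * t) :=
    mul_le_mul_of_nonneg_left hbud2 hDr.le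
  have k3 : (r:ℝ) * (10 * K * l + u * t) ≤ r * (20 * (hat B χ).re) :=
    mul_le_mul_of_nonneg_left hre hrr
  rw [hNs] at hc
  have k4 : ∑ j, N j * Real.cos (2 * Real.pi * (j.valMinAbs.natAbs : ℝ) / m) = -(hat B χ).re := by
    rw [hNre, neg_neg]
  rw [k4] at hc
  have k5 := mul_lt_mul_of_pos_right hAr hlr
  have k6 : 90 * (D:ℝ) * t ≤ (20 * a + r * u) * t := mul_le_mul_of_nonneg_right hBr (by positivity)
  nlinarith

end

end Pool.Agent.SCH
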