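import Mathlib
import Pool.Agent.Lib_helper13.SDC.TwoChar

/-!
# The third moment of `D(x) = 2 r_(B-B)(x) + r_(B+B)(x)` is nonnegative
-/

set_option autoImplicit false
set_option linter.unusedSectionVars false

namespace Pool.Agent.SCH

open Finset Pool.Agent.Lib_helper13.PL

universe u

section
variable {G : Type u} [AddCommGroup G] [Fintype G] [DecidableEq G]

/-- Fourier transform of a real function -/
noncomputable def ft (f : G → ℝ) (ψ : AddChar G ℂ) : ℂ := ∑ x, (f x : ℂ) * ψ x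

lemma ft_conj (f : G → ℝ) (ψ : AddChar G ℂ) :
    (starRingEnd ℂ) (ft f ψ) = ∑ x, (f x : ℂ) * ψ (-x) := by
  unfold ft
  rw [map_sum]
  refine Finset.sum_congr rfl fun x _ => ?_
  rw [map_mul, Complex.conj_ofReal, AddChar.map_neg_eq_conj]

/-- Parseval -/
lemma ft_parseval (f : G → ℝ) :
    ∑ ψ : AddChar G ℂ, Complex.normSq (ft f ψ) = (Fintype.card G : ℝ) * ∑ x, f x ^ 2 := by
  have h1 : ((∑ ψ : AddChar G ℂ, Complex.normSq (ft f ψ) : ℝ) : ℂ) =
      (((Fintype.card G : ℝ) * ∑ x, f x ^ 2 : ℝ) : ℂ) := by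
    push_cast
    calc ∑ ψ : AddChar G ℂ, (Complex.normSq (ft f ψ) : ℂ)
        = ∑ ψ : AddChar G ℂ, ∑ x, ∑ y, (f x : ℂ) * (f y : ℂ) * ψ (x - y) := by
          refine Finset.sum_congr rfl fun ψ _ => ?_
          rw [← Complex.mul_conj, ft_conj]
          unfold ft
          rw [Finset.sum_mul_sum]
          refine Finset.sum_congr rfl fun x _ => Finset.sum_congr rfl fun y _ => ?_
          rw [sub_eq_add_neg, AddChar.map_add_eq_mul]
          ring
      _ = ∑ x, ∑ y, ∑ ψ : AddChar G ℂ, (f x : ℂ) * (f y : ℂ) * ψ (x - y) := by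
          rw [Finset.sum_comm]
          exact Finset.sum_congr rfl fun x _ => Finset.sum_comm
      _ = ∑ x, ∑ y, (if x = y then (Fintype.card G : ℂ) * ((f x : ℂ) * (f y : ℂ)) else 0) := by
          refine Finset.sum_congr rfl fun x _ => Finset.sum_congr rfl fun y _ => ?_
          rw [← Finset.mul_sum, AddChar.sum_apply_eq_ite]
          simp only [sub_eq_zero]
          split_ifs <;> ring
      _ = ∑ x, (Fintype.card G : ℂ) * (f x : ℂ) ^ 2 := by
          refine Finset.sum_congr rfl fun x _ => ?_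
          rw [Finset.sum_ite_eq, if_pos (Finset.mem_univ _)]
          ring
      _ = (Fintype.card G : ℂ) * ∑ x, (f x : ℂ) ^ 2 := by rw [Finset.mul_sum]
  exact_mod_cast h1

/-- the third moment -/
lemma ft_third (f : G → ℝ) :
    ∑ ψ : AddChar G ℂ, ∑ η : AddChar G ℂ, ft f ψ * ft f η * ft f (-ψ + -η) =
      (((Fintype.card G : ℝ) ^ 2 * ∑ x, f x ^ 3 : ℝ) : ℂ) := by
  have key : ∀ ψ η : AddChar G ℂ, ft f ψ * ft f η * ft f (-ψ + -η) =
      ∑ z, ∑ x, ∑ y, (f x : ℂ) * (f y : ℂ) * (f z : ℂ) * (ψ (x - z) * η (y - z)) := by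
    intro ψ η
    unfold ft
    rw [Finset.sum_mul_sum, mul_comm, Finset.sum_mul]
    refine Finset.sum_congr rfl fun z _ => ?_
    rw [Finset.mul_sum]
    refine Finset.sum_congr rfl fun x _ => ?_
    rw [Finset.mul_sum]
    refine Finset.sum_congr rfl fun y _ => ?_
    rw [sub_eq_add_neg, sub_eq_add_neg, AddChar.map_add_eq_mul, AddChar.map_add_eq_mul,
      AddChar.add_apply, AddChar.neg_apply, AddChar.neg_apply]
    ring
  have h1 : ∑ ψ : AddChar G ℂ, ∑ η : AddChar G ℂ, ft f ψ * ft f η * ft f (-ψ + -η) =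
      ∑ z, ∑ x, ∑ y, ∑ ψ : AddChar G ℂ, ∑ η : AddChar G ℂ,
        (f x : ℂ) * (f y : ℂ) * (f z : ℂ) * (ψ (x - z) * η (y - z)) := by
    simp only [key]
    rw [Finset.sum_congr rfl fun ψ _ => Finset.sum_comm, Finset.sum_comm]
    refine Finset.sum_congr rfl fun z _ => ?_
    rw [Finset.sum_congr rfl fun ψ _ => Finset.sum_comm, Finset.sum_comm]
    refine Finset.sum_congr rfl fun x _ => ?_
    rw [Finset.sum_congr rfl fun ψ _ => Finset.sum_comm, Finset.sum_comm]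
  rw [h1]
  have h2 : ∀ z x y : G, ∑ ψ : AddChar G ℂ, ∑ η : AddChar G ℂ,
        (f x : ℂ) * (f y : ℂ) * (f z : ℂ) * (ψ (x - z) * η (y - z)) =
      if x = z then (if y = z then (f x : ℂ) * (f y : ℂ) * (f z : ℂ) *
        (Fintype.card G : ℂ) ^ 2 else 0) else 0 := by
    intro z x y
    have e : ∀ ψ : AddChar G ℂ, ∑ η : AddChar G ℂ,
        (f x : ℂ) * (f y : ℂ) * (f z : ℂ) * (ψ (x - z) * η (y - z)) =
        (f x : ℂ) * (f y : ℂ) * (f z : ℂ) * (ψ (x - z) * ∑ η : AddChar G ℂ, η (y - z)) := by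
      intro ψ
      rw [Finset.mul_sum, Finset.mul_sum]
    rw [Finset.sum_congr rfl fun ψ _ => e ψ, ← Finset.mul_sum, ← Finset.sum_mul,
      AddChar.sum_apply_eq_ite, AddChar.sum_apply_eq_ite]
    simp only [sub_eq_zero]
    split_ifs <;> ring
  simp only [h2]
  push_cast
  rw [Finset.mul_sum]
  refine Finset.sum_congr rfl fun z _ => ?_
  rw [Finset.sum_comm]
  have h3 : ∀ y : G, ∑ x, (if x = z then (if y = z then (f x : ℂ) * (f y : ℂ) * (f z : ℂ) *
        (Fintype.card G : ℂ) ^ 2 else 0) else 0) =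
      if y = z then (f z : ℂ) * (f y : ℂ) * (f z : ℂ) * (Fintype.card G : ℂ) ^ 2 else 0 := by
    intro y
    rw [Finset.sum_ite_eq', if_pos (Finset.mem_univ _)]
  simp only [h3]
  rw [Finset.sum_ite_eq', if_pos (Finset.mem_univ _)]
  ring

/-- products of three numbers in the sector of `30` degrees have nonnegative real part -/
lemma sector3 {z1 z2 z3 : ℂ} (h1 : 3 * z1.im ^ 2 ≤ z1.re ^ 2) (p1 : 0 ≤ z1.re)
    (h2 : 3 * z2.im ^ 2 ≤ z2.re ^ 2) (p2 : 0 ≤ z2.re)
    (h3 : 3 * z3.im ^ 2 ≤ z3.re ^ 2) (p3 : 0 ≤ z3.re) : 0 ≤ (z1 * z2 * z3).re := by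
  have hs : (√3 : ℝ) ^ 2 = 3 := Real.sq_sqrt (by norm_num)
  have hs0 : (0:ℝ) < √3 := Real.sqrt_pos.mpr (by norm_num)
  have q : ∀ z : ℂ, 3 * z.im ^ 2 ≤ z.re ^ 2 → 0 ≤ z.re → |√3 * z.im| ≤ z.re := by
    intro z h p
    apply abs_le_of_sq_le_sq _ p
    rw [mul_pow, hs]
    exact h
  have a1 := abs_le.mp (q z1 h1 p1)
  have a2 := abs_le.mp (q z2 h2 p2)
  have a3 := abs_le.mp (q z3 h3 p3)
  set u1 := √3 * z1.im with hu1
  set u2 := √3 * z2.im with hu2
  set u3 := √3 * z3.im with hu3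
  have e : 3 * (z1 * z2 * z3).re = 3 * z1.re * z2.re * z3.re - u1 * u2 * z3.re -
      u1 * u3 * z2.re - u2 * u3 * z1.re := by
    rw [hu1, hu2, hu3]
    simp only [Complex.mul_re, Complex.mul_im]
    linear_combination (z1.im * z2.im * z3.re + z1.im * z3.im * z2.re +
      z2.im * z3.im * z1.re) * hs
  have m12 : u1 * u2 ≤ z1.re * z2.re := by nlinarith
  have m13 : u1 * u3 ≤ z1.re * z3.re := by nlinarith
  have m23 : u2 * u3 ≤ z2.re * z3.re := by nlinarith
  have n12 := mul_le_mul_of_nonneg_right m12 p3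
  have n13 := mul_le_mul_of_nonneg_right m13 p2
  have n23 := mul_le_mul_of_nonneg_right m23 p1
  nlinarith

lemma third_nonneg (f : G → ℝ) (hf : ∀ ψ : AddChar G ℂ, 0 ≤ (ft f ψ).re ∧
    3 * (ft f ψ).im ^ 2 ≤ (ft f ψ).re ^ 2) : 0 ≤ ∑ x, f x ^ 3 := by
  have h := congrArg Complex.re (ft_third f)
  rw [Complex.ofReal_re, Complex.re_sum] at h
  have h1 : 0 ≤ (Fintype.card G : ℝ) ^ 2 * ∑ x, f x ^ 3 := by
    rw [← h]
    refine Finset.sum_nonneg fun ψ _ => ?_
    rw [Complex.re_sum]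
    refine Finset.sum_nonneg fun η _ => ?_
    exact sector3 (hf _).2 (hf _).1 (hf _).2 (hf _).1 (hf _).2 (hf _).1
  have hn : (0:ℝ) < (Fintype.card G : ℝ) ^ 2 := by
    have : 0 < Fintype.card G := Fintype.card_pos
    positivity
  exact nonneg_of_mul_nonneg_right h1 hn

/-- the transform of `D` -/
lemma ft_DB (B : Finset G) (ψ : AddChar G ℂ) :
    ft (fun x => (DB B x : ℝ)) ψ =
      2 * (hat B ψ * (starRingEnd ℂ) (hat B ψ)) + hat B ψ ^ 2 := by
  have h1 : ∑ x, ((TT {x} B B : ℤ) : ℂ) * ψ x = hat B ψ * (starRingEnd ℂ) (hat B ψ) := by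
    rw [hat_mul_conj]
    have e : ∀ x : G, ((TT {x} B B : ℤ) : ℂ) * ψ x =
        ∑ z ∈ B, ∑ y ∈ B, if z - y = x then ψ (z - y) else 0 := by
      intro x
      unfold TT
      rw [Finset.sum_singleton]
      push_cast
      rw [Finset.sum_mul, Finset.sum_comm]
      refine Finset.sum_congr rfl fun y _ => ?_
      have : ∀ z ∈ B, (if z - y = x then ψ (z - y) else 0) =
          if x + y = z then ψ x else 0 := by
        intro z _
        by_cases h : x + y = z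
        · have h' : z - y = x := by rw [← h]; abel
          rw [if_pos h, if_pos h', h']
        · have h' : z - y ≠ x := by
            intro h2; apply h; rw [← h2]; abel
          rw [if_neg h, if_neg h']
      rw [Finset.sum_congr rfl this, Finset.sum_ite_eq]
      split_ifs <;> simp
    rw [Finset.sum_congr rfl fun x _ => e x, Finset.sum_comm]
    refine Finset.sum_congr rfl fun z _ => ?_
    rw [Finset.sum_comm]
    refine Finset.sum_congr rfl fun y _ => ?_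
    rw [Finset.sum_ite_eq, if_pos (Finset.mem_univ _)]
  have h2 : ∑ x, ((TT B B {x} : ℤ) : ℂ) * ψ x = hat B ψ ^ 2 := by
    have e : ∀ x : G, ((TT B B {x} : ℤ) : ℂ) * ψ x =
        ∑ z ∈ B, ∑ y ∈ B, if z + y = x then ψ (z + y) else 0 := by
      intro x
      unfold TT
      push_cast
      rw [Finset.sum_mul]
      refine Finset.sum_congr rfl fun z _ => ?_
      rw [Finset.sum_mul]
      refine Finset.sum_congr rfl fun y _ => ?_
      by_cases h : z + y = x
      · rw [if_pos h, if_pos (by rw [Finset.mem_singleton]; exact h), h, one_mul]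
      · rw [if_neg h, if_neg (by rw [Finset.mem_singleton]; exact h), zero_mul]
    rw [Finset.sum_congr rfl fun x _ => e x, Finset.sum_comm, pow_two]
    unfold hat
    rw [Finset.sum_mul_sum]
    refine Finset.sum_congr rfl fun z _ => ?_
    rw [Finset.sum_comm]
    refine Finset.sum_congr rfl fun y _ => ?_
    rw [Finset.sum_ite_eq, if_pos (Finset.mem_univ _), AddChar.map_add_eq_mul]
  rw [← h1, ← h2]
  unfold ft DB
  rw [Finset.mul_sum, ← Finset.sum_add_distrib]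
  refine Finset.sum_congr rfl fun x _ => ?_
  push_cast
  ring

lemma ft_sub_const (f : G → ℝ) (c : ℝ) (ψ : AddChar G ℂ) :
    ft (fun x => f x - c) ψ = ft f ψ - if ψ = 0 then (Fintype.card G : ℂ) * c else 0 := by
  have h : ∑ x : G, (c : ℂ) * ψ x = if ψ = 0 then (Fintype.card G : ℂ) * c else 0 := by
    rw [← Finset.mul_sum, AddChar.sum_eq_ite]
    split_ifs <;> ring
  rw [← h]
  unfold ft
  rw [← Finset.sum_sub_distrib]
  refine Finset.sum_congr rfl fun x _ => ?_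
  push_cast
  ring

/-- `D` minus its mean -/
noncomputable def Dm (B : Finset G) (x : G) : ℝ :=
  (DB B x : ℝ) - 3 * (B.card : ℝ) ^ 2 / (Fintype.card G : ℝ)

lemma ft_Dm_zero (B : Finset G) : ft (Dm B) 0 = 0 := by
  have hn : (Fintype.card G : ℂ) ≠ 0 := by
    have : Fintype.card G ≠ 0 := Fintype.card_ne_zero
    exact_mod_cast this
  have h := ft_sub_const (fun x => (DB B x : ℝ))
    (3 * (B.card : ℝ) ^ 2 / (Fintype.card G : ℝ)) (0 : AddChar G ℂ)
  have e : ft (Dm B) 0 = ft (fun x => (DB B x : ℝ) -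
    (3 * (B.card : ℝ) ^ 2 / (Fintype.card G : ℝ))) 0 := rfl
  rw [e, h, ft_DB, hat_zero, if_pos rfl]
  push_cast
  rw [Complex.conj_natCast]
  field_simp
  ring

lemma ft_Dm (B : Finset G) {ψ : AddChar G ℂ} (hψ : ψ ≠ 0) :
    ft (Dm B) ψ = 2 * (hat B ψ * (starRingEnd ℂ) (hat B ψ)) + hat B ψ ^ 2 := by
  have h := ft_sub_const (fun x => (DB B x : ℝ))
    (3 * (B.card : ℝ) ^ 2 / (Fintype.card G : ℝ)) ψ
  have e : ft (Dm B) ψ = ft (fun x => (DB B x : ℝ) -
    (3 * (B.card : ℝ) ^ 2 / (Fintype.card G : ℝ))) ψ := rfl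
  rw [e, h, ft_DB, if_neg hψ, sub_zero]

lemma D_re (w : ℂ) : (2 * (w * (starRingEnd ℂ) w) + w ^ 2).re = 3 * w.re ^ 2 + w.im ^ 2 := by
  rw [Complex.mul_conj]
  simp only [Complex.add_re, Complex.mul_re, Complex.ofReal_re, Complex.ofReal_im, pow_two,
    Complex.normSq_apply, Complex.re_ofNat, Complex.im_ofNat]
  ring

lemma D_im (w : ℂ) : (2 * (w * (starRingEnd ℂ) w) + w ^ 2).im = 2 * w.re * w.im := by
  rw [Complex.mul_conj]
  simp only [Complex.add_im, Complex.mul_im, Complex.ofReal_re, Complex.ofReal_im, pow_two,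
    Complex.normSq_apply, Complex.re_ofNat, Complex.im_ofNat]
  ring

/-- **(SK1)** the third moment of `D` is nonnegative -/
theorem skew (B : Finset G) : 0 ≤ ∑ x, Dm B x ^ 3 := by
  apply third_nonneg
  intro ψ
  by_cases hψ : ψ = 0
  · rw [hψ, ft_Dm_zero]; simp
  · rw [ft_Dm B hψ, D_re, D_im]
    set w := hat B ψ
    constructor
    · positivity
    · nlinarith [sq_nonneg (3 * w.re ^ 2 - w.im ^ 2)]

/-- **(SK2)** the second moment of `D` -/
theorem Dm_second (B : Finset G) :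
    (Fintype.card G : ℝ) * ∑ x, Dm B x ^ 2 =
      ∑ ψ ∈ (Finset.univ : Finset (AddChar G ℂ)).erase 0,
        Complex.normSq (hat B ψ) * (9 * (hat B ψ).re ^ 2 + (hat B ψ).im ^ 2) := by
  rw [← ft_parseval, ← Finset.add_sum_erase _ _ (Finset.mem_univ (0 : AddChar G ℂ)),
    ft_Dm_zero, map_zero, zero_add]
  refine Finset.sum_congr rfl fun ψ hψ => ?_
  rw [ft_Dm B (Finset.mem_erase.mp hψ).1, Complex.normSq_apply, D_re, D_im, Complex.normSq_apply]
  ring

/-- the mean of `D - μ` vanishes -/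
theorem Dm_first (B : Finset G) : ∑ x, Dm B x = 0 := by
  have h := congrArg Complex.re (ft_Dm_zero B)
  unfold ft at h
  rw [Complex.re_sum] at h
  rw [Complex.zero_re] at h
  rw [← h]
  refine Finset.sum_congr rfl fun x _ => ?_
  rw [AddChar.zero_apply, mul_one, Complex.ofReal_re]

theorem Dm_second_le (B : Finset G) {V : ℝ}
    (hV : ∀ ψ : AddChar G ℂ, ψ ≠ 0 → 9 * (hat B ψ).re ^ 2 + (hat B ψ).im ^ 2 ≤ V) :
    (Fintype.card G : ℝ) * ∑ x, Dm B x ^ 2 ≤
      V * ((Fintype.card G : ℝ) * B.card - (B.card : ℝ) ^ 2) := by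
  rw [Dm_second]
  have hp := parseval B
  rw [← Finset.add_sum_erase _ _ (Finset.mem_univ (0 : AddChar G ℂ)), hat_zero,
    Complex.normSq_natCast] at hp
  have h1 : ∑ ψ ∈ (Finset.univ : Finset (AddChar G ℂ)).erase 0,
        Complex.normSq (hat B ψ) * (9 * (hat B ψ).re ^ 2 + (hat B ψ).im ^ 2) ≤
      ∑ ψ ∈ (Finset.univ : Finset (AddChar G ℂ)).erase 0, Complex.normSq (hat B ψ) * V :=
    Finset.sum_le_sum fun ψ hψ => mul_le_mul_of_nonneg_left
      (hV ψ (Finset.mem_erase.mp hψ).1) (Complex.normSq_nonneg _)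
  rw [← Finset.sum_mul] at h1
  have h2 : ∑ ψ ∈ (Finset.univ : Finset (AddChar G ℂ)).erase 0, Complex.normSq (hat B ψ) =
      (Fintype.card G : ℝ) * B.card - (B.card : ℝ) ^ 2 := by
    have : (B.card : ℝ) * B.card = (B.card : ℝ) ^ 2 := by ring
    linarith
  rw [h2] at h1
  linarith

/-- some nontrivial character has the largest `9 Re² + Im²` -/
lemma exists_big (B : Finset G) (hnt : Nontrivial G) :
    ∃ ψ : AddChar G ℂ, ψ ≠ 0 ∧ (Fintype.card G : ℝ) * ∑ x, Dm B x ^ 2 ≤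
      (9 * (hat B ψ).re ^ 2 + (hat B ψ).im ^ 2) *
        ((Fintype.card G : ℝ) * B.card - (B.card : ℝ) ^ 2) := by
  classical
  have hne : ((Finset.univ : Finset (AddChar G ℂ)).erase 0).Nonempty := by
    obtain ⟨a, ha⟩ := exists_ne (0 : G)
    obtain ⟨ψ, hψ⟩ := AddChar.exists_apply_ne_zero.2 ha
    refine ⟨ψ, Finset.mem_erase.2 ⟨?_, Finset.mem_univ _⟩⟩
    rintro rfl
    exact hψ (AddChar.zero_apply a)
  obtain ⟨χ, hχ, hmax⟩ := Finset.exists_max_image _
    (fun ψ => 9 * (hat B ψ).re ^ 2 + (hat B ψ).im ^ 2) hne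
  exact ⟨χ, (Finset.mem_erase.1 hχ).1, Dm_second_le B fun ψ hψ =>
    hmax ψ (Finset.mem_erase.2 ⟨hψ, Finset.mem_univ _⟩)⟩

lemma sum_DB_B (B : Finset G) : ∑ x ∈ B, DB B x = 3 * TT B B B := by
  have h1 : ∑ x ∈ B, TT {x} B B = TT B B B := by
    unfold TT
    exact Finset.sum_congr rfl fun x _ => by rw [Finset.sum_singleton]
  have h2 : ∑ x ∈ B, TT B B {x} = TT B B B := by
    unfold TT
    rw [Finset.sum_comm]
    refine Finset.sum_congr rfl fun y _ => ?_
    rw [Finset.sum_comm]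
    refine Finset.sum_congr rfl fun z _ => ?_
    simp only [Finset.mem_singleton]
    rw [Finset.sum_ite_eq]
  unfold DB
  rw [Finset.sum_add_distrib, ← Finset.mul_sum, h1, h2]
  ring

lemma TT_FF (B : Finset G) : 4 * TT B B B = GL.FF B + 3 * (B.card : ℤ) ^ 2 := by
  rw [TT_eq_sch]
  unfold GL.FF
  ring

lemma sum_affine (S : Finset G) (y : G → ℝ) (c0 c1 y0 : ℝ) :
    ∑ x ∈ S, (c0 + c1 * (y x - y0)) = (S.card : ℝ) * c0 + c1 * (∑ x ∈ S, y x - S.card * y0) := by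
  rw [Finset.sum_add_distrib, ← Finset.mul_sum, Finset.sum_sub_distrib, Finset.sum_const,
    Finset.sum_const, nsmul_eq_mul, nsmul_eq_mul]

/-- **(SK3)** a character with large `9 Re² + Im²` -/
theorem skew_char (B : Finset G) (hb0 : 0 < B.card) (hbn : B.card < Fintype.card G)
    {be F al yB yA y1 y2 rho V : ℝ} (hbe : be = (B.card : ℝ) / (Fintype.card G : ℝ))
    (hF : F = ((GL.FF B : ℤ) : ℝ) / (Fintype.card G : ℝ) ^ 2) (hal : al = 1 - be)
    (hyB : yB = 3 * (F + 3 * be ^ 2) / (4 * be) - 3 * be ^ 2) (hyA : yA = -(be * yB / al))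
    (hy2 : y2 = 3 * al * be) (hy1 : 0 < y1) (hrho : rho = 1 / (2 * y1 + y2)) (hB0 : 0 ≤ yB)
    (hV : V = al * (yA ^ 2 - rho * yA ^ 3) +
      be * (y1 ^ 2 - rho * y1 ^ 3 + (2 * y1 - 3 * rho * y1 ^ 2) * (yB - y1))) :
    ∃ ψ : AddChar G ℂ, ψ ≠ 0 ∧ V ≤ (9 * ((hat B ψ).re / (Fintype.card G : ℝ)) ^ 2 +
      ((hat B ψ).im / (Fintype.card G : ℝ)) ^ 2) * (al * be) := by
  have hnt : Nontrivial G := by
    rw [← Fintype.one_lt_card_iff_nontrivial]; omega
  obtain ⟨ψ, hψ, hmax⟩ := exists_big B hnt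
  refine ⟨ψ, hψ, ?_⟩
  set n : ℝ := (Fintype.card G : ℝ) with hn
  set b : ℝ := (B.card : ℝ) with hb
  have hb0' : 0 < b := by rw [hb]; exact_mod_cast hb0
  have hbn' : b < n := by rw [hb, hn]; exact_mod_cast hbn
  have hn0 : 0 < n := by linarith
  have hbe0 : 0 < be := by rw [hbe]; positivity
  have hbe1 : be < 1 := by rw [hbe, div_lt_one hn0]; exact hbn'
  have hal0 : 0 < al := by linarith
  have hy20 : 0 < y2 := by rw [hy2]; positivity
  have hrho0 : 0 < rho := by rw [hrho]; positivity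
  have hrho1 : rho * (2 * y1 + y2) = 1 := by rw [hrho]; field_simp
  have hyA0 : yA ≤ 0 := by
    rw [hyA, neg_nonpos]; positivity
  -- the normalised function
  set y : G → ℝ := fun x => Dm B x / n with hy
  have hyle : ∀ x, y x ≤ y2 := by
    intro x
    have h1 : DB B x ≤ 3 * (B.card : ℤ) := by
      rw [DB_eq]
      have h1 := dlt_nonneg B x
      have h2 : 0 ≤ dlt' B x := by unfold dlt'; positivity
      linarith
    have h2 : (DB B x : ℝ) ≤ 3 * b := by rw [hb]; exact_mod_cast h1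
    have h3 : y x = ((DB B x : ℝ) - 3 * b ^ 2 / n) / n := rfl
    have h4 : y2 = (3 * b - 3 * b ^ 2 / n) / n := by
      rw [hy2, hal, hbe]; field_simp
    rw [h3, h4]
    exact div_le_div_of_nonneg_right (by linarith) hn0.le
  have hcard : (Bᶜ.card : ℝ) = n - b := by
    rw [Finset.card_compl, Nat.cast_sub hbn.le]
  have hsB : ∑ x ∈ B, y x = b * yB := by
    have h1 := sum_DB_B B
    have h2 := TT_FF B
    have h3 : ∑ x ∈ B, (DB B x : ℝ) = 3 / 4 * (((GL.FF B : ℤ) : ℝ) + 3 * b ^ 2) := by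
      have e1 : ∑ x ∈ B, (DB B x : ℝ) = 3 * ((TT B B B : ℤ) : ℝ) := by exact_mod_cast h1
      have e2 : 4 * ((TT B B B : ℤ) : ℝ) = ((GL.FF B : ℤ) : ℝ) + 3 * b ^ 2 := by
        rw [hb]; exact_mod_cast h2
      rw [e1]; linarith
    have h4 : ∑ x ∈ B, y x = (∑ x ∈ B, (DB B x : ℝ) - b * (3 * b ^ 2 / n)) / n := by
      rw [hy, ← Finset.sum_div]
      unfold Dm
      rw [Finset.sum_sub_distrib, Finset.sum_const, nsmul_eq_mul]
    rw [h4, h3, hyB, hF, hbe]
    field_simp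
  have hs0 : ∑ x ∈ B, y x + ∑ x ∈ Bᶜ, y x = 0 := by
    rw [Finset.sum_add_sum_compl, hy, ← Finset.sum_div, Dm_first, zero_div]
  have hsA : ∑ x ∈ Bᶜ, y x = (n - b) * yA := by
    have h1 : (n - b) * yA = -(b * yB) := by
      have h2 : n - b = n * al := by rw [hal, hbe]; field_simp
      have h3 : b = n * be := by rw [hbe]; field_simp
      rw [h2, hyA, h3]
      field_simp
    rw [h1]; linarith
  -- the cubic
  have gA : ∀ x, yA ^ 2 - rho * yA ^ 3 + (2 * yA - 3 * rho * yA ^ 2) * (y x - yA) ≤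
      y x ^ 2 - rho * y x ^ 3 := by
    intro x
    have e : y x ^ 2 - rho * y x ^ 3 -
        (yA ^ 2 - rho * yA ^ 3 + (2 * yA - 3 * rho * yA ^ 2) * (y x - yA)) =
        (y x - yA) ^ 2 * (1 - rho * (y x + 2 * yA)) := by ring
    have h1 : 0 ≤ 1 - rho * (y x + 2 * yA) := by
      have h2 : rho * (y x + 2 * yA) ≤ rho * (2 * y1 + y2) :=
        mul_le_mul_of_nonneg_left (by linarith [hyle x]) hrho0.le
      linarith
    have := mul_nonneg (sq_nonneg (y x - yA)) h1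
    linarith
  have gB : ∀ x, y1 ^ 2 - rho * y1 ^ 3 + (2 * y1 - 3 * rho * y1 ^ 2) * (y x - y1) ≤
      y x ^ 2 - rho * y x ^ 3 := by
    intro x
    have e : y x ^ 2 - rho * y x ^ 3 -
        (y1 ^ 2 - rho * y1 ^ 3 + (2 * y1 - 3 * rho * y1 ^ 2) * (y x - y1)) =
        (y x - y1) ^ 2 * (1 - rho * (y x + 2 * y1)) := by ring
    have h1 : 0 ≤ 1 - rho * (y x + 2 * y1) := by
      have h2 : rho * (y x + 2 * y1) ≤ rho * (2 * y1 + y2) :=
        mul_le_mul_of_nonneg_left (by linarith [hyle x]) hrho0.le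
      linarith
    have := mul_nonneg (sq_nonneg (y x - y1)) h1
    linarith
  have sA : (n - b) * (yA ^ 2 - rho * yA ^ 3) ≤ ∑ x ∈ Bᶜ, (y x ^ 2 - rho * y x ^ 3) := by
    have h1 := Finset.sum_le_sum fun x (_ : x ∈ Bᶜ) => gA x
    have h2 : ∑ x ∈ Bᶜ, (yA ^ 2 - rho * yA ^ 3 + (2 * yA - 3 * rho * yA ^ 2) * (y x - yA)) =
        (n - b) * (yA ^ 2 - rho * yA ^ 3) := by
      rw [sum_affine, hsA, hcard]
      ring
    rw [h2] at h1
    exact h1
  have sB : b * (y1 ^ 2 - rho * y1 ^ 3 + (2 * y1 - 3 * rho * y1 ^ 2) * (yB - y1)) ≤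
      ∑ x ∈ B, (y x ^ 2 - rho * y x ^ 3) := by
    have h1 := Finset.sum_le_sum fun x (_ : x ∈ B) => gB x
    have h2 : ∑ x ∈ B, (y1 ^ 2 - rho * y1 ^ 3 + (2 * y1 - 3 * rho * y1 ^ 2) * (y x - y1)) =
        b * (y1 ^ 2 - rho * y1 ^ 3 + (2 * y1 - 3 * rho * y1 ^ 2) * (yB - y1)) := by
      rw [sum_affine, hsB]
      ring
    rw [h2] at h1
    exact h1
  have hcub : 0 ≤ ∑ x, y x ^ 3 := by
    have h1 := skew B
    have h2 : ∑ x, y x ^ 3 = (∑ x, Dm B x ^ 3) / n ^ 3 := by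
      rw [Finset.sum_div]
      exact Finset.sum_congr rfl fun x _ => by rw [hy]; exact div_pow _ _ _
    rw [h2]; positivity
  have hsq : ∑ x, y x ^ 2 = (∑ x, Dm B x ^ 2) / n ^ 2 := by
    rw [Finset.sum_div]
    exact Finset.sum_congr rfl fun x _ => by rw [hy]; exact div_pow _ _ _
  have htot : n * V ≤ ∑ x, y x ^ 2 := by
    have h1 : ∑ x ∈ B, (y x ^ 2 - rho * y x ^ 3) + ∑ x ∈ Bᶜ, (y x ^ 2 - rho * y x ^ 3) =
        ∑ x, y x ^ 2 - rho * ∑ x, y x ^ 3 := by
      rw [Finset.sum_add_sum_compl, Finset.sum_sub_distrib, Finset.mul_sum]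
    have h2 : n * V = (n - b) * (yA ^ 2 - rho * yA ^ 3) +
        b * (y1 ^ 2 - rho * y1 ^ 3 + (2 * y1 - 3 * rho * y1 ^ 2) * (yB - y1)) := by
      have e1 : n - b = n * al := by rw [hal, hbe]; field_simp
      have e2 : b = n * be := by rw [hbe]; field_simp
      rw [hV, e1, e2]; ring
    have h3 : 0 ≤ rho * ∑ x, y x ^ 3 := by positivity
    rw [h2]; linarith
  rw [hsq, le_div_iff₀ (by positivity)] at htot
  have h5 : n * (n * V * n ^ 2) ≤
      (9 * (hat B ψ).re ^ 2 + (hat B ψ).im ^ 2) * (n * b - b ^ 2) :=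
    le_trans (mul_le_mul_of_nonneg_left htot hn0.le) hmax
  have h6 : (9 * ((hat B ψ).re / n) ^ 2 + ((hat B ψ).im / n) ^ 2) * (al * be) =
      ((9 * (hat B ψ).re ^ 2 + (hat B ψ).im ^ 2) * (n * b - b ^ 2)) / n ^ 4 := by
    rw [hal, hbe]
    field_simp
  rw [h6, le_div_iff₀ (by positivity)]
  calc V * n ^ 4 = n * (n * V * n ^ 2) := by ring
    _ ≤ _ := h5

end

end Pool.Agent.SCH
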