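import Mathlib
import Pool.Agent.Lib_helper26.SCH.Shift
import Pool.Agent.Lib_helper26.SCH.Skel
import Pool.Agent.Lib_helper13.PL.KKT

/-!
# The reverse shift inequalities and the exchange step
-/

set_option autoImplicit false
set_option linter.unusedSectionVars false

namespace Pool.Agent.SCH

open Finset Pool.Agent.Lib_helper13.PL

universe u

section
variable {G : Type u} [AddCommGroup G] [Fintype G] [DecidableEq G]

/-- difference of the coefficients of two sets of the same size, in bathtub form -/
lemma diff_bath {m : ℕ} (hm : 2 ≤ m) {χ : AddChar G ℂ} {φ : G →+ ZMod m}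
    (hφ : Function.Surjective φ) (h : Std χ φ) (A C : Finset G) (hAC : A.card = C.card) :
    ‖hat A χ - hat C χ‖ ≤ 2 * ((Nat.card φ.ker : ℝ) / Real.sin (Real.pi / m) *
      Real.sin (Real.pi * (A \ C).card / Fintype.card G)) := by
  rw [hat_sub_hat]
  have h1 : (C \ A).card = (A \ C).card := (Finset.card_sdiff_comm hAC).symm
  have h2 := norm_hat_bath hm hφ h (A \ C)
  have h3 := norm_hat_bath hm hφ h (C \ A)
  rw [h1] at h3
  refine (norm_sub_le _ _).trans ?_
  linarith

/-- **reverse shift inequality**, first form -/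
theorem out1 {m : ℕ} (hm : 2 ≤ m) {χ : AddChar G ℂ} {φ : G →+ ZMod m}
    (hφ : Function.Surjective φ) (h : Std χ φ) (B : Finset G) (w : G) :
    |Real.sin (ang φ w)| * ‖hat B χ‖ ≤ (Nat.card φ.ker : ℝ) / Real.sin (Real.pi / m) *
      Real.sin (Real.pi * ((dlt B w : ℤ) : ℝ) / Fintype.card G) := by
  have hinj : Function.Injective (fun y : G => y + w) := add_left_injective w
  have h1 : hat (B.image (fun y => y + w)) χ = χ w * hat B χ := by
    unfold hat
    rw [Finset.sum_image fun a _ b _ h => hinj h, Finset.mul_sum]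
    refine Finset.sum_congr rfl fun y _ => ?_
    rw [AddChar.map_add_eq_mul, mul_comm]
  have h2 : ((B.image (fun y => y + w)) \ B).card = (B.filter (fun y => y + w ∉ B)).card := by
    rw [← Finset.card_image_of_injective (B.filter (fun y => y + w ∉ B)) hinj]
    congr 1
    ext z
    simp only [Finset.mem_sdiff, Finset.mem_image, Finset.mem_filter]
    constructor
    · rintro ⟨⟨y, hy, rfl⟩, hz⟩
      exact ⟨y, ⟨hy, hz⟩, rfl⟩
    · rintro ⟨y, ⟨hy, hz⟩, rfl⟩
      exact ⟨⟨y, hy, rfl⟩, hz⟩
  have h3 := diff_bath hm hφ h (B.image (fun y => y + w)) B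
    (Finset.card_image_of_injective B hinj)
  rw [h1, h2] at h3
  have e : χ w * hat B χ - hat B χ = (χ w - 1) * hat B χ := by ring
  rw [e, norm_mul] at h3
  have h4 : ‖χ w - 1‖ = 2 * |Real.sin (ang φ w)| := by
    rw [h.eq w]
    set t := ang φ w
    have e : (Complex.cos t + Complex.sin t * Complex.I) ^ 2 - 1 =
        ((2 * Real.sin t : ℝ) : ℂ) * Complex.I * (Complex.cos t + Complex.sin t * Complex.I) := by
      have h3 := Complex.sin_sq_add_cos_sq (t : ℂ)
      push_cast
      linear_combination (Complex.sin t * Complex.sin t) * Complex.I_sq -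
        2 * (Complex.sin t * Complex.sin t) * Complex.I_sq + h3
    rw [e, norm_mul, norm_mul, Complex.norm_I, mul_one, Complex.norm_real, ← Complex.exp_mul_I,
      Complex.norm_exp_ofReal_mul_I, mul_one, Real.norm_eq_abs, abs_mul, abs_two]
  rw [h4] at h3
  unfold dlt
  push_cast
  linarith

/-- **reverse shift inequality**, reflected form -/
theorem out2 {m : ℕ} (hm : 2 ≤ m) {χ : AddChar G ℂ} {φ : G →+ ZMod m}
    (hφ : Function.Surjective φ) (h : Std χ φ) (B : Finset G) (w : G) :
    |Real.sin (ang φ w) * (hat B χ).re - Real.cos (ang φ w) * (hat B χ).im| ≤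
      (Nat.card φ.ker : ℝ) / Real.sin (Real.pi / m) *
      Real.sin (Real.pi * ((dlt' B w : ℤ) : ℝ) / Fintype.card G) := by
  have hinj : Function.Injective (fun y : G => w - y) := sub_right_injective
  have h1 : hat (B.image (fun y => w - y)) χ = χ w * (starRingEnd ℂ) (hat B χ) := by
    rw [hat_conj]
    unfold hat
    rw [Finset.sum_image fun a _ b _ h => hinj h, Finset.mul_sum]
    refine Finset.sum_congr rfl fun y _ => ?_
    rw [sub_eq_add_neg, AddChar.map_add_eq_mul]
  have h2 : ((B.image (fun y => w - y)) \ B).card = (B.filter (fun y => w - y ∉ B)).card := by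
    rw [← Finset.card_image_of_injective (B.filter (fun y => w - y ∉ B)) hinj]
    congr 1
    ext z
    simp only [Finset.mem_sdiff, Finset.mem_image, Finset.mem_filter]
    constructor
    · rintro ⟨⟨y, hy, rfl⟩, hz⟩
      exact ⟨y, ⟨hy, hz⟩, rfl⟩
    · rintro ⟨y, ⟨hy, hz⟩, rfl⟩
      exact ⟨⟨y, hy, rfl⟩, hz⟩
  have h3 := diff_bath hm hφ h (B.image (fun y => w - y)) B
    (Finset.card_image_of_injective B hinj)
  rw [h1, h2] at h3
  have h4 : ‖χ w * (starRingEnd ℂ) (hat B χ) - hat B χ‖ =
      2 * |Real.sin (ang φ w) * (hat B χ).re - Real.cos (ang φ w) * (hat B χ).im| := by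
    rw [h.eq w]
    set t := ang φ w
    set z := hat B χ with hz
    have e0 : ∀ a b : ℝ, (Complex.cos t + Complex.sin t * Complex.I) ^ 2 *
        ((a : ℂ) - b * Complex.I) - ((a : ℂ) + b * Complex.I) =
        ((2 * (Real.sin t * a - Real.cos t * b) : ℝ) : ℂ) * Complex.I *
          (Complex.cos t + Complex.sin t * Complex.I) := by
      intro a b
      have h3 := Complex.sin_sq_add_cos_sq (t : ℂ)
      push_cast
      linear_combination ((a : ℂ) + b * Complex.I) * h3 -
        Complex.sin t ^ 2 * ((a : ℂ) + b * Complex.I) * Complex.I_sq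
    have h4 : (starRingEnd ℂ) z = (z.re : ℂ) - z.im * Complex.I := by
      apply Complex.ext <;> simp
    have e := e0 z.re z.im
    rw [← h4, Complex.re_add_im] at e
    rw [e, norm_mul, norm_mul, Complex.norm_I, mul_one, Complex.norm_real, ← Complex.exp_mul_I,
      Complex.norm_exp_ofReal_mul_I, mul_one, Real.norm_eq_abs, abs_mul, abs_two]
  rw [h4] at h3
  unfold dlt'
  push_cast
  linarith

lemma ex_c (C : Finset G) (x w : G) : TT {x} {w} C = iv C (x + w) := by
  unfold TT iv
  rw [Finset.sum_singleton, Finset.sum_singleton]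

lemma ex_b (C : Finset G) (x w : G) : TT {x} C {w} = iv C (w - x) := by
  unfold TT iv
  rw [Finset.sum_singleton]
  have h2 : ∀ z ∈ C, (if x + z ∈ ({w} : Finset G) then (1:ℤ) else 0) =
      if z = w - x then 1 else 0 := by
    intro z _
    have : x + z ∈ ({w} : Finset G) ↔ z = w - x := by
      rw [Finset.mem_singleton]
      constructor
      · intro h; rw [← h]; abel
      · intro h; rw [h]; abel
    simp only [this]
  rw [Finset.sum_congr rfl h2, Finset.sum_ite_eq']

lemma ex_a (C : Finset G) (w x : G) : TT C {w} {x} = iv C (x - w) := by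
  rw [TT_comm, ex_b]

/-- `D_B` in terms of `D_{B - w}` -/
lemma ex_DB (B : Finset G) {x w : G} (hw : w ∈ B) :
    DB B x = DB (B.erase w) x + 2 * iv (B.erase w) (w - x) + 2 * iv (B.erase w) (x + w) +
      2 * iv {w} (x + w) + 2 * iv (B.erase w) (x - w) + iv {x} (w + w) := by
  have hd : Disjoint (B.erase w) {w} :=
    Finset.disjoint_singleton_right.mpr (Finset.notMem_erase w B)
  have hu : B = B.erase w ∪ {w} := by
    rw [Finset.union_comm]
    exact (Finset.insert_erase hw).symm
  have a1 : TT {x} B B = TT {x} (B.erase w) (B.erase w) + iv (B.erase w) (w - x) +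
      iv (B.erase w) (x + w) + iv {w} (x + w) := by
    conv_lhs => rw [hu]
    rw [TT_union2 _ _ hd, TT_union3 _ _ hd, TT_union3 _ _ hd, ex_b, ex_c, ex_c]
    ring
  have a2 : TT B B {x} = TT (B.erase w) (B.erase w) {x} + 2 * iv (B.erase w) (x - w) +
      iv {x} (w + w) := by
    conv_lhs => rw [hu]
    rw [TT_union1 _ _ hd, TT_union2 _ _ hd, TT_union2 _ _ hd, TT_comm {w} (B.erase w), ex_a, ex_c]
    ring
  unfold DB
  rw [a1, a2]; ring

/-- exact change of the number of triples under an exchange -/
theorem ex_TT (B : Finset G) {x w : G} (hx : x ∉ B) (hw : w ∈ B) (hw0 : w ≠ 0) :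
    TT (insert x (B.erase w)) (insert x (B.erase w)) (insert x (B.erase w)) =
      TT B B B + DB B x - DB B w - (2 * iv (B.erase w) (w - x) + 2 * iv (B.erase w) (x + w) +
      2 * iv {w} (x + w) + 2 * iv (B.erase w) (x - w) + iv {x} (w + w)) + 2 * iv (B.erase w) 0 +
      iv (B.erase w) (x + x) + iv {0} x + 2 * iv B 0 + iv B (w + w) := by
  have hx' : x ∉ B.erase w := fun h => hx (Finset.mem_of_mem_erase h)
  have h1 := TT_insert (B.erase w) x hx'
  have h2 := TT_erase B w hw hw0
  have h3 := ex_DB B (x := x) hw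
  linarith

/-- exchanging an element of `B` with an element outside, `0 ∈ B` -/
theorem exch_of_le (B : Finset G)
    (hmax : ∀ B' : Finset G, B'.card = B.card → GL.FF B' ≤ GL.FF B)
    {x w : G} (h0 : (0 : G) ∈ B) (hx : x ∉ B) (hw : w ∈ B) (hw0 : w ≠ 0) :
    2 * dlt B w + dlt' B w ≤ 2 * dlt B x + dlt' B x + 2 := by
  have hx' : x ∉ B.erase w := fun h => hx (Finset.mem_of_mem_erase h)
  have hcard : (insert x (B.erase w)).card = B.card := by
    rw [Finset.card_insert_of_notMem hx', Finset.card_erase_of_mem hw]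
    have : 0 < B.card := Finset.card_pos.mpr ⟨w, hw⟩
    omega
  have h1 := hmax _ hcard
  rw [← FF_eq, ← FF_eq] at h1
  unfold FF at h1
  rw [hcard, ex_TT B hx hw hw0] at h1
  have hx0 : x ≠ 0 := fun h => hx (h ▸ h0)
  have e1 : iv B 0 = 1 := by unfold iv; rw [if_pos h0]
  have e2 : iv (B.erase w) 0 = 1 := by
    unfold iv
    rw [if_pos (Finset.mem_erase.mpr ⟨hw0.symm, h0⟩)]
  have e3 : iv ({w} : Finset G) (x + w) = 0 := by
    unfold iv
    rw [if_neg]
    rw [Finset.mem_singleton]
    exact fun h => hx0 (add_eq_right.mp h)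
  have n1 := iv_nonneg (B.erase w) (x + x)
  have n2 := iv_nonneg ({0} : Finset G) x
  have n3 := iv_nonneg B (w + w)
  have m1 := iv_le_one (B.erase w) (w - x)
  have m2 := iv_le_one (B.erase w) (x + w)
  have m3 := iv_le_one (B.erase w) (x - w)
  have m4 : 2 * iv (B.erase w) (x - w) + iv ({x} : Finset G) (w + w) ≤ 2 := by
    by_cases h : w + w = x
    · have : iv (B.erase w) (x - w) = 0 := by
        unfold iv
        rw [if_neg]
        rw [← h, add_sub_cancel_right]
        exact Finset.notMem_erase w B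
      rw [this]
      have := iv_le_one ({x} : Finset G) (w + w)
      linarith
    · have : iv ({x} : Finset G) (w + w) = 0 := by
        unfold iv
        rw [if_neg]
        rw [Finset.mem_singleton]
        exact h
      rw [this]
      linarith
  rw [e1, e2, e3] at h1
  have d1 := DB_eq B x
  have d2 := DB_eq B w
  linarith

/-- the general exchange inequality, `0` in `B` or not -/
theorem exch_of_le' (B : Finset G)
    (hmax : ∀ B' : Finset G, B'.card = B.card → GL.FF B' ≤ GL.FF B)
    {x w : G} (hx : x ∉ B) (hw : w ∈ B) (hw0 : w ≠ 0) :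
    2 * dlt B w + dlt' B w ≤ 2 * dlt B x + dlt' B x + 6 := by
  have hx' : x ∉ B.erase w := fun h => hx (Finset.mem_of_mem_erase h)
  have hcard : (insert x (B.erase w)).card = B.card := by
    rw [Finset.card_insert_of_notMem hx', Finset.card_erase_of_mem hw]
    have : 0 < B.card := Finset.card_pos.mpr ⟨w, hw⟩
    omega
  have h1 := hmax _ hcard
  rw [← FF_eq, ← FF_eq] at h1
  unfold FF at h1
  rw [hcard, ex_TT B hx hw hw0] at h1
  have n1 := iv_nonneg (B.erase w) (x + x)
  have n2 := iv_nonneg ({0} : Finset G) x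
  have n3 := iv_nonneg B (w + w)
  have n4 := iv_nonneg B 0
  have n5 := iv_nonneg (B.erase w) 0
  have m1 := iv_le_one (B.erase w) (w - x)
  have m2 : iv (B.erase w) (w - x) + iv (B.erase w) (x + w) + iv ({w} : Finset G) (x + w) ≤ 2 := by
    by_cases h : x + w = w
    · have : iv (B.erase w) (x + w) = 0 := by
        unfold iv
        rw [if_neg]
        rw [h]
        exact Finset.notMem_erase w B
      rw [this]
      have := iv_le_one ({w} : Finset G) (x + w)
      linarith
    · have : iv ({w} : Finset G) (x + w) = 0 := by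
        unfold iv
        rw [if_neg]
        rw [Finset.mem_singleton]
        exact h
      rw [this]
      have := iv_le_one (B.erase w) (x + w)
      linarith
  have m3 := iv_le_one (B.erase w) (x - w)
  have m4 : 2 * iv (B.erase w) (x - w) + iv ({x} : Finset G) (w + w) ≤ 2 := by
    by_cases h : w + w = x
    · have : iv (B.erase w) (x - w) = 0 := by
        unfold iv
        rw [if_neg]
        rw [← h, add_sub_cancel_right]
        exact Finset.notMem_erase w B
      rw [this]
      have := iv_le_one ({x} : Finset G) (w + w)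
      linarith
    · have : iv ({x} : Finset G) (w + w) = 0 := by
        unfold iv
        rw [if_neg]
        rw [Finset.mem_singleton]
        exact h
      rw [this]
      linarith
  have d1 := DB_eq B x
  have d2 := DB_eq B w
  linarith

lemma IsMaxi.le {B : Finset G} (h : IsMaxi B) (B' : Finset G) (hc : B'.card = B.card) :
    GL.FF B' ≤ GL.FF B := by
  have := h B'
  rw [hc] at this
  linarith

/-- **exchange**, `0 ∈ B` -/
theorem exch {B : Finset G} (h : IsMaxi B) {x w : G} (h0 : (0 : G) ∈ B) (hx : x ∉ B)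
    (hw : w ∈ B) (hw0 : w ≠ 0) : 2 * dlt B w + dlt' B w ≤ 2 * dlt B x + dlt' B x + 2 :=
  exch_of_le B (fun B' hc => h.le B' hc) h0 hx hw hw0

/-- **exchange** -/
theorem exch' {B : Finset G} (h : IsMaxi B) {x w : G} (hx : x ∉ B)
    (hw : w ∈ B) (hw0 : w ≠ 0) : 2 * dlt B w + dlt' B w ≤ 2 * dlt B x + dlt' B x + 6 :=
  exch_of_le' B (fun B' hc => h.le B' hc) hx hw hw0

end

end Pool.Agent.SCH
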