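import Mathlib
import Pool.Agent.Lib_helper60.SCH.Skew
import Pool.Agent.Lib_helper60.SCH.Lev
import Pool.Agent.Lib_helper93.T4.ShiftFree
import Pool.Agent.Lib_helper26.SCH.Shift

/-!
# The hole from the skewness
-/

set_option autoImplicit false
set_option linter.unusedSectionVars false

namespace Pool.Agent.SCH

open Finset Pool.Agent.GL Pool.Agent.Lib_helper42.RS Pool.Agent.Lib_helper13.PL

universe u

/-- the real inequality behind the skewness argument -/
def RBStmt : Prop :=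
  ∀ (b F a yB yA y1 y2 rho V R I s : ℝ),
    ((6.8 / 11 ≤ b ∧ b ≤ 0.6354 ∧ s = 0.3175 ∧ -0.00182 ≤ F) ∨
      (0.6353 ≤ b ∧ b ≤ 0.66 ∧ s = 0.2126 ∧ -0.00182 ≤ F) ∨
      (0.66 ≤ b ∧ b ≤ 2 / 3 ∧ s = 0.1905 ∧ -0.19048 * (2 / 3 - b) - 0.0004 ≤ F)) →
    a = 1 - b → yB = 3 * (F + 3 * b ^ 2) / (4 * b) - 3 * b ^ 2 → yA = -(b * yB / a) →
    y2 = 3 * a * b → y1 = 0.2 - 1.28 * (b - 0.6182) → rho = 1 / (2 * y1 + y2) →
    V = a * (yA ^ 2 - rho * yA ^ 3) +
      b * (y1 ^ 2 - rho * y1 ^ 3 + (2 * y1 - 3 * rho * y1 ^ 2) * (yB - y1)) →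
    V ≤ (9 * R ^ 2 + I ^ 2) * (a * b) →
    3 / Real.pi * Real.sin (Real.pi * b) * Real.cos (Real.pi * (b / 2 - s / 12)) <
      √3 * √(R ^ 2 + I ^ 2) + √3 / 2 * |R| - |I| / 2

section
variable {G : Type u} [AddCommGroup G] [Fintype G] [DecidableEq G]

lemma dlt_le_compl (B : Finset G) (x : G) : dlt B x ≤ (Bᶜ.card : ℤ) := by
  unfold dlt
  have h : (B.filter (fun y => y + x ∉ B)).card ≤ Bᶜ.card := by
    rw [← Finset.card_image_of_injective (B.filter (fun y => y + x ∉ B)) (add_left_injective x)]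
    apply Finset.card_le_card
    intro z hz
    obtain ⟨y, hy, rfl⟩ := Finset.mem_image.mp hz
    exact Finset.mem_compl.mpr (Finset.mem_filter.mp hy).2
  exact_mod_cast h

lemma dlt'_le_compl (B : Finset G) (x : G) : dlt' B x ≤ (Bᶜ.card : ℤ) := by
  unfold dlt'
  have h : (B.filter (fun y => x - y ∉ B)).card ≤ Bᶜ.card := by
    rw [← Finset.card_image_of_injective (B.filter (fun y => x - y ∉ B))
      (sub_right_injective (b := x))]
    apply Finset.card_le_card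
    intro z hz
    obtain ⟨y, hy, rfl⟩ := Finset.mem_image.mp hz
    exact Finset.mem_compl.mpr (Finset.mem_filter.mp hy).2
  exact_mod_cast h

/-- the full hole of a character from the kappa-free shift, normalised form -/
theorem hole_of_big {B : Finset G} {q : ℕ} {ψ : AddChar G ℂ} {φ : G →+ ZMod q} (hq : 5 ≤ q)
    (hodd : q % 2 = 1) (hsurj : Function.Surjective φ) (hstd : Std ψ φ) (hmax : IsMaxi B)
    (hb2 : Fintype.card G ≤ 2 * B.card) {D : ℤ} (hD : fG G (B.card + 1) ≤ fG G B.card + D)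
    {s : ℝ} (hs : (D : ℝ) + 3 ≤ s * Fintype.card G) (hs1 : s ≤ 1)
    (h0 : (0 : G) ∈ B)
    (hbig : 3 / Real.pi * Real.sin (Real.pi * ((B.card : ℝ) / Fintype.card G)) *
        Real.cos (Real.pi * ((B.card : ℝ) / Fintype.card G / 2 - s / 12)) <
      √3 * √(((hat B ψ).re / Fintype.card G) ^ 2 + ((hat B ψ).im / Fintype.card G) ^ 2) +
        √3 / 2 * |(hat B ψ).re / Fintype.card G| - |(hat B ψ).im / Fintype.card G| / 2) :
    ∀ x : G, 6 * |(φ x).valMinAbs| ≤ q → x ∈ B := by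
  intro x hx
  by_contra hxB
  have hx0 : x ≠ 0 := fun h => hxB (h ▸ h0)
  have hk := kkt_notMem' (fG G) B hmax x hxB hx0
  obtain ⟨s1, s2⟩ := T4.shift_free hq hodd hsurj hstd B x hx
  set n : ℝ := (Fintype.card G : ℝ) with hn
  set b : ℝ := (B.card : ℝ) with hb
  have hn0 : 0 < n := by rw [hn]; exact_mod_cast Fintype.card_pos
  have hpi := Real.pi_pos
  have hbn : b ≤ n := by rw [hb, hn]; exact_mod_cast Finset.card_le_univ B
  have hb2' : n ≤ 2 * b := by rw [hb, hn]; exact_mod_cast hb2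
  have hcA : ((Bᶜ.card : ℤ) : ℝ) = n - b := by
    rw [hn, hb]
    push_cast
    rw [Finset.card_compl, Nat.cast_sub (Finset.card_le_univ B)]
  set d : ℝ := ((dlt B x : ℤ) : ℝ) with hd
  set d' : ℝ := ((dlt' B x : ℤ) : ℝ) with hd'
  have hd0 : 0 ≤ d := by rw [hd]; exact_mod_cast dlt_nonneg B x
  have hd'0 : 0 ≤ d' := by
    rw [hd']
    have : (0:ℤ) ≤ dlt' B x := by unfold dlt'; positivity
    exact_mod_cast this
  have hd1 : d ≤ n - b := by rw [← hcA, hd]; exact_mod_cast dlt_le_compl B x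
  have hd'1 : d' ≤ n - b := by rw [← hcA, hd']; exact_mod_cast dlt'_le_compl B x
  have hk2 : 6 * b - 3 - D ≤ 4 * (2 * d + d') := by
    have h1 : 6 * (B.card : ℤ) - 3 - D ≤ 4 * (2 * dlt B x + dlt' B x) := by linarith
    have h2 : ((6 * (B.card : ℤ) - 3 - D : ℤ) : ℝ) ≤ ((4 * (2 * dlt B x + dlt' B x) : ℤ) : ℝ) := by
      exact_mod_cast h1
    push_cast at h2
    exact h2
  -- angles
  have hX0 : 0 ≤ Real.pi * d / n := by positivity
  have hX1 : Real.pi * d / n ≤ Real.pi / 2 := by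
    rw [div_le_iff₀ hn0]
    have : Real.pi * d ≤ Real.pi * (n / 2) := mul_le_mul_of_nonneg_left (by linarith) hpi.le
    linarith
  have hY0 : 0 ≤ Real.pi * d' / n := by positivity
  have hY1 : Real.pi * d' / n ≤ Real.pi / 2 := by
    rw [div_le_iff₀ hn0]
    have : Real.pi * d' ≤ Real.pi * (n / 2) := mul_le_mul_of_nonneg_left (by linarith) hpi.le
    linarith
  have hj := cos_conc hX0 hX1 hY0 hY1
  have hmono : Real.cos ((2 * (Real.pi * d / n) + Real.pi * d' / n) / 3) ≤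
      Real.cos (Real.pi * (b / n / 2 - s / 12)) := by
    apply Real.cos_le_cos_of_nonneg_of_le_pi
    · apply mul_nonneg hpi.le
      have : 1 / 2 ≤ b / n := by rw [le_div_iff₀ hn0]; linarith
      linarith
    · linarith
    · have e : (2 * (Real.pi * d / n) + Real.pi * d' / n) / 3 = Real.pi * ((2 * d + d') / (3 * n)) := by
        field_simp
      rw [e]
      apply mul_le_mul_of_nonneg_left _ hpi.le
      rw [le_div_iff₀ (by positivity)]
      have e2 : (b / n / 2 - s / 12) * (3 * n) = 3 / 2 * b - s * n / 4 := by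
        field_simp
        ring
      rw [e2]
      linarith
  have hsin : 0 ≤ Real.sin (Real.pi * (b / n)) := by
    apply Real.sin_nonneg_of_nonneg_of_le_pi
    · positivity
    · have : b / n ≤ 1 := by rw [div_le_one hn0]; exact hbn
      calc Real.pi * (b / n) ≤ Real.pi * 1 := mul_le_mul_of_nonneg_left this hpi.le
        _ = Real.pi := mul_one _
  have eb : Real.pi * b / n = Real.pi * (b / n) := by ring
  rw [eb] at s1 s2
  set sn := Real.sin (Real.pi * (b / n)) with hsn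
  -- normalise
  have t1 : √3 * √(((hat B ψ).re / n) ^ 2 + ((hat B ψ).im / n) ^ 2) ≤
      2 / Real.pi * sn * Real.cos (Real.pi * d / n) := by
    have e1 : √(((hat B ψ).re / n) ^ 2 + ((hat B ψ).im / n) ^ 2) = ‖hat B ψ‖ / n := by
      have : ((hat B ψ).re / n) ^ 2 + ((hat B ψ).im / n) ^ 2 = (‖hat B ψ‖ / n) ^ 2 := by
        rw [div_pow, div_pow, div_pow, Complex.sq_norm, Complex.normSq_apply]
        ring
      rw [this, Real.sqrt_sq (by positivity)]
    rw [e1]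
    have e2 : √3 * (‖hat B ψ‖ / n) = √3 * ‖hat B ψ‖ / n := by ring
    rw [e2, div_le_iff₀ hn0]
    refine le_trans s1 (le_of_eq ?_)
    ring
  have t2 : √3 / 2 * |(hat B ψ).re / n| - |(hat B ψ).im / n| / 2 ≤
      1 / Real.pi * sn * Real.cos (Real.pi * d' / n) := by
    rw [abs_div, abs_div, abs_of_pos hn0]
    have e2 : √3 / 2 * (|(hat B ψ).re| / n) - |(hat B ψ).im| / n / 2 =
        (√3 / 2 * |(hat B ψ).re| - |(hat B ψ).im| / 2) / n := by ring
    rw [e2, div_le_iff₀ hn0]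
    refine le_trans s2 (le_of_eq ?_)
    ring
  have t3 : 2 / Real.pi * sn * Real.cos (Real.pi * d / n) +
      1 / Real.pi * sn * Real.cos (Real.pi * d' / n) ≤
      3 / Real.pi * sn * Real.cos (Real.pi * (b / n / 2 - s / 12)) := by
    have e : 2 / Real.pi * sn * Real.cos (Real.pi * d / n) +
      1 / Real.pi * sn * Real.cos (Real.pi * d' / n) =
      (1 / Real.pi * sn) * (2 * Real.cos (Real.pi * d / n) + Real.cos (Real.pi * d' / n)) := by
      ring
    have e3 : 3 / Real.pi * sn * Real.cos (Real.pi * (b / n / 2 - s / 12)) =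
      (1 / Real.pi * sn) * (3 * Real.cos (Real.pi * (b / n / 2 - s / 12))) := by ring
    rw [e, e3]
    apply mul_le_mul_of_nonneg_left _ (by positivity)
    linarith
  linarith

/-- **(SK)**: some character of order at least three with large `9 Re² + Im²`, whose full hole
is inside `B` as soon as its order is not three -/
theorem hole_SK {B : Finset G} (hRB : RBStmt) (hodd : Odd (Fintype.card G)) (hmax : IsMaxi B)
    {D : ℤ} (hD : fG G (B.card + 1) ≤ fG G B.card + D) {s b F V : ℝ}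
    (hb : b = (B.card : ℝ) / (Fintype.card G : ℝ))
    (hF : F = ((GL.FF B : ℤ) : ℝ) / (Fintype.card G : ℝ) ^ 2)
    (hs : (D : ℝ) + 3 ≤ s * Fintype.card G)
    (h : (6.8 / 11 ≤ b ∧ b ≤ 0.6354 ∧ s = 0.3175 ∧ -0.00182 ≤ F) ∨
      (0.6353 ≤ b ∧ b ≤ 0.66 ∧ s = 0.2126 ∧ -0.00182 ≤ F) ∨
      (0.66 ≤ b ∧ b ≤ 2 / 3 ∧ s = 0.1905 ∧ -0.19048 * (2 / 3 - b) - 0.0004 ≤ F))
    {a yB yA y1 y2 rho : ℝ} (ha : a = 1 - b)
    (hyB : yB = 3 * (F + 3 * b ^ 2) / (4 * b) - 3 * b ^ 2) (hyA : yA = -(b * yB / a))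
    (hy2 : y2 = 3 * a * b) (hy1 : y1 = 0.2 - 1.28 * (b - 0.6182)) (hrho : rho = 1 / (2 * y1 + y2))
    (hV : V = a * (yA ^ 2 - rho * yA ^ 3) +
      b * (y1 ^ 2 - rho * y1 ^ 3 + (2 * y1 - 3 * rho * y1 ^ 2) * (yB - y1))) :
    ∃ (q : ℕ) (ψ : AddChar G ℂ) (φ : G →+ ZMod q), 3 ≤ q ∧ q % 2 = 1 ∧ Function.Surjective φ ∧
      Std ψ φ ∧ V ≤ (9 * ((hat B ψ).re / (Fintype.card G : ℝ)) ^ 2 +
      ((hat B ψ).im / (Fintype.card G : ℝ)) ^ 2) * (a * b) ∧
      (5 ≤ q → ∀ x : G, 6 * |(φ x).valMinAbs| ≤ q → x ∈ B) := by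
  have hn0 : (0:ℝ) < (Fintype.card G : ℝ) := by exact_mod_cast Fintype.card_pos
  have hb1 : 6.8 / 11 ≤ b ∧ b ≤ 2 / 3 := by
    rcases h with h | h | h
    · exact ⟨h.1, by linarith [h.2.1]⟩
    · exact ⟨by linarith [h.1], by linarith [h.2.1]⟩
    · exact ⟨by linarith [h.1], h.2.1⟩
  have hFl : -0.00182 ≤ F := by
    rcases h with h | h | h
    · exact h.2.2.2
    · exact h.2.2.2
    · have h1 := h.1
      have h2 := h.2.2.2
      linarith
  have hs1 : s ≤ 0.3175 := by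
    rcases h with h | h | h
    · rw [h.2.2.1]
    · rw [h.2.2.1]; norm_num
    · rw [h.2.2.1]; norm_num
  have hbn : b * (Fintype.card G : ℝ) = B.card := by rw [hb]; field_simp
  have hB0 : 0 < B.card := by
    have : (0:ℝ) < (B.card : ℝ) := by rw [← hbn]; nlinarith
    exact_mod_cast this
  have hB1 : B.card < Fintype.card G := by
    have : (B.card : ℝ) < (Fintype.card G : ℝ) := by rw [← hbn]; nlinarith
    exact_mod_cast this
  have hB2 : Fintype.card G ≤ 2 * B.card := by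
    have : (Fintype.card G : ℝ) ≤ 2 * (B.card : ℝ) := by rw [← hbn]; nlinarith
    exact_mod_cast this
  have hbpos : 0 < b := by linarith [hb1.1]
  have hyB0 : 0 ≤ yB := by
    rw [hyB, sub_nonneg, le_div_iff₀ (by positivity)]
    nlinarith [mul_nonneg (sub_nonneg.mpr hb1.1) (sub_nonneg.mpr hb1.2), hb1.1, hb1.2]
  have hy10 : 0 < y1 := by rw [hy1]; linarith [hb1.2]
  obtain ⟨ψ, hψ, hbig⟩ := skew_char B hB0 hB1 hb hF ha hyB hyA hy2 hy10 hrho hyB0 hV
  obtain ⟨q, hq2, φ, hsurj, hstd⟩ := exists_zmod ψ hψ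
  have hdvd : q ∣ Fintype.card G := by
    have : NeZero q := ⟨by omega⟩
    exact ⟨_, card_ker_mul φ hsurj⟩
  have hqodd : q % 2 = 1 := by
    have := Odd.of_dvd_nat hodd hdvd
    exact Nat.odd_iff.mp this
  refine ⟨q, ψ, φ, by omega, hqodd, hsurj, hstd, hbig, fun hq5 => ?_⟩
  -- `0 ∈ B`
  have h0 : (0 : G) ∈ B := by
    apply zero_mem_slope hmax hD
    have e1 : ((Bᶜ.card : ℤ) : ℝ) = (Fintype.card G : ℝ) - B.card := by
      push_cast
      rw [Finset.card_compl, Nat.cast_sub hB1.le]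
    have : (D : ℝ) + 4 * ((Bᶜ.card : ℤ) : ℝ) < 6 * (B.card : ℝ) + 1 := by
      rw [e1, ← hbn]
      have : s * (Fintype.card G : ℝ) ≤ 0.3175 * (Fintype.card G : ℝ) :=
        mul_le_mul_of_nonneg_right hs1 hn0.le
      nlinarith [mul_le_mul_of_nonneg_right hb1.1 hn0.le]
    exact_mod_cast this
  have hreal := hRB b F a yB yA y1 y2 rho V _ _ s h ha hyB hyA hy2 hy1 hrho hV hbig
  subst hb
  exact hole_of_big hq5 hqodd hsurj hstd hmax hB2 hD hs (by linarith) h0 hreal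

end

end Pool.Agent.SCH
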