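import Mathlib
import Pool.Agent.Lib_helper60.SCH.Lev
import Pool.Agent.Lib_helper26.SCH.LayBd

/-!
# Small cells near `2/3`: `m = e = 9, 21, 27`
-/

set_option autoImplicit false
set_option linter.unusedSectionVars false

namespace Pool.Agent.SCH

open Finset Pool.Agent.GL Pool.Agent.Lib_helper42.RS Pool.Agent.Lib_helper13.PL

universe u

lemma cos_dbl1 {x c d : ℝ} (h : c ≤ Real.cos (x / 2)) (hc : 0 ≤ c) (hd : d ≤ 2 * c ^ 2 - 1) :
    d ≤ Real.cos x := by
  have e : x = 2 * (x / 2) := by ring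
  rw [e, Real.cos_two_mul]
  have : c ^ 2 ≤ Real.cos (x / 2) ^ 2 := pow_le_pow_left₀ hc h 2
  linarith

lemma cos_dbl {x u c0 c1 c2 c3 q : ℝ} (hx : 0 ≤ x) (hu : x ≤ 16 * u) (h0 : c0 ≤ 1 - u ^ 2 / 2)
    (p0 : 0 ≤ c0) (h1 : c1 ≤ 2 * c0 ^ 2 - 1) (p1 : 0 ≤ c1) (h2 : c2 ≤ 2 * c1 ^ 2 - 1)
    (p2 : 0 ≤ c2) (h3 : c3 ≤ 2 * c2 ^ 2 - 1) (p3 : 0 ≤ c3) (h4 : q ≤ 2 * c3 ^ 2 - 1) :
    q ≤ Real.cos x := by
  refine cos_dbl1 ?_ p3 h4
  refine cos_dbl1 ?_ p2 h3
  refine cos_dbl1 ?_ p1 h2
  refine cos_dbl1 ?_ p0 h1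
  have hy : x / 2 / 2 / 2 / 2 ≤ u := by linarith
  have hy0 : 0 ≤ x / 2 / 2 / 2 / 2 := by positivity
  have := Real.one_sub_sq_div_two_le_cos (x := x / 2 / 2 / 2 / 2)
  nlinarith

/-- the weights in terms of rational lower bounds for the cosines -/
lemma hw_of {m : ℕ} [NeZero m] {q W : List ℤ} {r qd : ℤ} (hqd : 0 < qd) (hr : 0 ≤ r)
    (hq : ∀ t : ℕ, t ≤ m / 2 → ((q.getD t 0 : ℤ) : ℝ) ≤ qd * Real.cos (2 * Real.pi * (t : ℝ) / m))
    (hd : ∀ t : ℕ, t ≤ m / 2 → qd * W.getD t 0 ≤ r * q.getD t 0) (j : ZMod m) :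
    ((W.getD j.valMinAbs.natAbs 0 : ℤ) : ℝ) ≤
      r * Real.cos (2 * Real.pi * (j.valMinAbs.natAbs : ℝ) / m) := by
  have ht := ZMod.natAbs_valMinAbs_le j
  set t := j.valMinAbs.natAbs
  have h1 := hq t ht
  have h2 : (qd : ℝ) * ((W.getD t 0 : ℤ) : ℝ) ≤ r * ((q.getD t 0 : ℤ) : ℝ) := by
    exact_mod_cast hd t ht
  have hqr : (0:ℝ) < qd := by exact_mod_cast hqd
  have hrr : (0:ℝ) ≤ r := by exact_mod_cast hr
  have h3 := mul_le_mul_of_nonneg_left h1 hrr
  have h4 : (qd : ℝ) * ((W.getD t 0 : ℤ) : ℝ) ≤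
      qd * (r * Real.cos (2 * Real.pi * (t : ℝ) / m)) := by linarith
  exact le_of_mul_le_mul_left h4 hqr


lemma q9 : ∀ t : ℕ, t ≤ 9 / 2 →
    ((([10000, 7660, 1736, -5000, -9398] : List ℤ).getD t 0 : ℤ) : ℝ) ≤
      (10000 : ℤ) * Real.cos (2 * Real.pi * (t : ℝ) / (9 : ℕ)) := by
  have hc3 : Real.cos (3 * (2 * Real.pi / 9)) = -1 / 2 := by
    have : 3 * (2 * Real.pi / 9) = Real.pi - Real.pi / 3 := by ring
    rw [this, Real.cos_pi_sub, Real.cos_pi_div_three]
    norm_num
  rw [Real.cos_three_mul] at hc3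
  have hc0 : 0.7 ≤ Real.cos (2 * Real.pi / 9) := by
    have h1 : Real.cos (Real.pi / 4) ≤ Real.cos (2 * Real.pi / 9) := by
      apply Real.cos_le_cos_of_nonneg_of_le_pi
      · positivity
      · linarith [Real.pi_pos]
      · linarith [Real.pi_pos]
    rw [Real.cos_pi_div_four] at h1
    have h2 : (1.4 : ℝ) ≤ √2 := by
      apply Real.le_sqrt_of_sq_le; norm_num
    linarith
  set c := Real.cos (2 * Real.pi / 9) with hc
  have h40 : 0.76604 ≤ c := by
    by_contra h
    push Not at h
    nlinarith [mul_pos (sub_pos.mpr h) (sub_pos.mpr h), mul_nonneg (sub_nonneg.mpr hc0) (sub_pos.mpr h).le]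
  have h80 : 0.17363 ≤ Real.cos (2 * (2 * Real.pi / 9)) := by
    rw [Real.cos_two_mul, ← hc]; nlinarith
  have h160 : -0.9398 ≤ Real.cos (2 * (2 * (2 * Real.pi / 9))) := by
    rw [Real.cos_two_mul]; nlinarith
  have h120 : Real.cos (2 * Real.pi / 3) = -1 / 2 := by
    have : 2 * Real.pi / 3 = Real.pi - Real.pi / 3 := by ring
    rw [this, Real.cos_pi_sub, Real.cos_pi_div_three]
    norm_num
  intro t ht
  interval_cases t
  · norm_num
  · rw [show 2 * Real.pi * ((1:ℕ) : ℝ) / (9 : ℕ) = 2 * Real.pi / 9 by push_cast; ring, ← hc]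
    norm_num; linarith
  · rw [show 2 * Real.pi * ((2:ℕ) : ℝ) / (9 : ℕ) = 2 * (2 * Real.pi / 9) by push_cast; ring]
    norm_num at h80 ⊢; linarith
  · rw [show 2 * Real.pi * ((3:ℕ) : ℝ) / (9 : ℕ) = 2 * Real.pi / 3 by push_cast; ring, h120]
    norm_num
  · rw [show 2 * Real.pi * ((4:ℕ) : ℝ) / (9 : ℕ) = 2 * (2 * (2 * Real.pi / 9)) by push_cast; ring]
    norm_num at h160 ⊢; linarith


lemma q21 : ∀ t : ℕ, t ≤ 21 / 2 →
    (((([100, 95, 82, 61, 36, 6, -23, -50, -75, -92, -100] : List ℤ)).getD t 0 : ℤ) : ℝ) ≤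
      (100 : ℤ) * Real.cos (2 * Real.pi * (t : ℝ) / (21 : ℕ)) := by
  have hp := Real.pi_lt_d6
  have hp0 := Real.pi_pos
  intro t ht
  interval_cases t
  · norm_num
  · have h : (95 / 100 : ℝ) ≤ Real.cos (2 * Real.pi * ((1 : ℕ) : ℝ) / (21 : ℕ)) := by
      refine cos_dbl (u := 187 / 10000) (c0 := 199965031 / 200000000)
        (c1 := 999300681 / 1000000000) (c2 := 498601851 / 500000000)
        (c3 := 494415223 / 500000000) (by positivity) ?_ (by norm_num) (by norm_num)
        (by norm_num) (by norm_num) (by norm_num) (by norm_num) (by norm_num) (by norm_num)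
        (by norm_num)
      push_cast
      linarith
    norm_num at h ⊢
    linarith
  · have h : (82 / 100 : ℝ) ≤ Real.cos (2 * Real.pi * ((2 : ℕ) : ℝ) / (21 : ℕ)) := by
      refine cos_dbl (u := 187 / 5000) (c0 := 49965031 / 50000000)
        (c1 := 498601729 / 500000000) (c2 := 988829473 / 1000000000)
        (c3 := 955567453 / 1000000000) (by positivity) ?_ (by norm_num) (by norm_num)
        (by norm_num) (by norm_num) (by norm_num) (by norm_num) (by norm_num) (by norm_num)
        (by norm_num)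
      push_cast
      linarith
    norm_num at h ⊢
    linarith
  · have h : (61 / 100 : ℝ) ≤ Real.cos (2 * Real.pi * ((3 : ℕ) : ℝ) / (21 : ℕ)) := by
      refine cos_dbl (u := 560999 / 10000000) (c0 := 1248033 / 1250000)
        (c1 := 124213819 / 125000000) (c2 := 487460661 / 500000000)
        (c3 := 14077237 / 15625000) (by positivity) ?_ (by norm_num) (by norm_num)
        (by norm_num) (by norm_num) (by norm_num) (by norm_num) (by norm_num) (by norm_num)
        (by norm_num)
      push_cast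
      linarith
    norm_num at h ⊢
    linarith
  · have h : (36 / 100 : ℝ) ≤ Real.cos (2 * Real.pi * ((4 : ℕ) : ℝ) / (21 : ℕ)) := by
      refine cos_dbl (u := 747999 / 10000000) (c0 := 997202487 / 1000000000)
        (c1 := 77252 / 78125) (c2 := 477776067 / 500000000)
        (c3 := 826159761 / 1000000000) (by positivity) ?_ (by norm_num) (by norm_num)
        (by norm_num) (by norm_num) (by norm_num) (by norm_num) (by norm_num) (by norm_num)
        (by norm_num)
      push_cast
      linarith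
    norm_num at h ⊢
    linarith
  · have h : (6 / 100 : ℝ) ≤ Real.cos (2 * Real.pi * ((5 : ℕ) : ℝ) / (21 : ℕ)) := by
      refine cos_dbl (u := 467499 / 5000000) (c0 := 995628893 / 1000000000)
        (c1 := 196510757 / 200000000) (c2 := 23270597 / 25000000)
        (c3 := 732866191 / 1000000000) (by positivity) ?_ (by norm_num) (by norm_num)
        (by norm_num) (by norm_num) (by norm_num) (by norm_num) (by norm_num) (by norm_num)
        (by norm_num)
      push_cast
      linarith
    norm_num at h ⊢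
    linarith
  · have h : (-23 / 100 : ℝ) ≤ Real.cos (2 * Real.pi * ((6 : ℕ) : ℝ) / (21 : ℕ)) := by
      refine cos_dbl (u := 560999 / 5000000) (c0 := 496852801 / 500000000)
        (c1 := 487450823 / 500000000) (c2 := 450433219 / 500000000)
        (c3 := 311560339 / 500000000) (by positivity) ?_ (by norm_num) (by norm_num)
        (by norm_num) (by norm_num) (by norm_num) (by norm_num) (by norm_num) (by norm_num)
        (by norm_num)
      push_cast
      linarith
    norm_num at h ⊢
    linarith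
  · rw [show 2 * Real.pi * ((7 : ℕ) : ℝ) / (21 : ℕ) = Real.pi - Real.pi / 3 by push_cast; ring,
      Real.cos_pi_sub, Real.cos_pi_div_three]
    norm_num
  · have h : (-75 / 100 : ℝ) ≤ Real.cos (2 * Real.pi * ((8 : ℕ) : ℝ) / (21 : ℕ)) := by
      refine cos_dbl (u := 1495997 / 10000000) (c0 := 247202491 / 250000000)
        (c1 := 955490289 / 1000000000) (c2 := 103240423 / 125000000)
        (c3 := 45537359 / 125000000) (by positivity) ?_ (by norm_num) (by norm_num)
        (by norm_num) (by norm_num) (by norm_num) (by norm_num) (by norm_num) (by norm_num)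
        (by norm_num)
      push_cast
      linarith
    norm_num at h ⊢
    linarith
  · have h : (-92 / 100 : ℝ) ≤ Real.cos (2 * Real.pi * ((9 : ℕ) : ℝ) / (21 : ℕ)) := by
      refine cos_dbl (u := 1682997 / 10000000) (c0 := 197167521 / 200000000)
        (c1 := 471875783 / 500000000) (c2 := 195333509 / 250000000)
        (c3 := 220965751 / 1000000000) (by positivity) ?_ (by norm_num) (by norm_num)
        (by norm_num) (by norm_num) (by norm_num) (by norm_num) (by norm_num) (by norm_num)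
        (by norm_num)
      push_cast
      linarith
    norm_num at h ⊢
    linarith
  · have h : (-100 / 100 : ℝ) ≤ Real.cos (2 * Real.pi * ((10 : ℕ) : ℝ) / (21 : ℕ)) := by
      refine cos_dbl (u := 467499 / 2500000) (c0 := 491257787 / 500000000)
        (c1 := 465336853 / 500000000) (c2 := 366153547 / 500000000)
        (c3 := 72547359 / 1000000000) (by positivity) ?_ (by norm_num) (by norm_num)
        (by norm_num) (by norm_num) (by norm_num) (by norm_num) (by norm_num) (by norm_num)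
        (by norm_num)
      push_cast
      linarith
    norm_num at h ⊢
    linarith

lemma q27 : ∀ t : ℕ, t ≤ 27 / 2 →
    (((([100, 96, 88, 75, 58, 38, 16, -7, -30, -50, -70, -85, -95, -100] : List ℤ)).getD t 0 : ℤ) : ℝ) ≤
      (100 : ℤ) * Real.cos (2 * Real.pi * (t : ℝ) / (27 : ℕ)) := by
  have hp := Real.pi_lt_d6
  have hp0 := Real.pi_pos
  intro t ht
  interval_cases t
  · norm_num
  · have h : (96 / 100 : ℝ) ≤ Real.cos (2 * Real.pi * ((1 : ℕ) : ℝ) / (27 : ℕ)) := by
      refine cos_dbl (u := 29089 / 2000000) (c0 := 249973557 / 250000000)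
        (c1 := 499788467 / 500000000) (c2 := 998308093 / 1000000000)
        (c3 := 993238097 / 1000000000) (by positivity) ?_ (by norm_num) (by norm_num)
        (by norm_num) (by norm_num) (by norm_num) (by norm_num) (by norm_num) (by norm_num)
        (by norm_num)
      push_cast
      linarith
    norm_num at h ⊢
    linarith
  · have h : (88 / 100 : ℝ) ≤ Real.cos (2 * Real.pi * ((2 : ℕ) : ℝ) / (27 : ℕ)) := by
      refine cos_dbl (u := 290889 / 10000000) (c0 := 999576917 / 1000000000)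
        (c1 := 39932321 / 40000000) (c2 := 39729513 / 40000000)
        (c3 := 486521377 / 500000000) (by positivity) ?_ (by norm_num) (by norm_num)
        (by norm_num) (by norm_num) (by norm_num) (by norm_num) (by norm_num) (by norm_num)
        (by norm_num)
      push_cast
      linarith
    norm_num at h ⊢
    linarith
  · have h : (75 / 100 : ℝ) ≤ Real.cos (2 * Real.pi * ((3 : ℕ) : ℝ) / (27 : ℕ)) := by
      refine cos_dbl (u := 436333 / 10000000) (c0 := 999048067 / 1000000000)
        (c1 := 6226213 / 6250000) (c2 := 98480529 / 100000000)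
        (c3 := 469841459 / 500000000) (by positivity) ?_ (by norm_num) (by norm_num)
        (by norm_num) (by norm_num) (by norm_num) (by norm_num) (by norm_num) (by norm_num)
        (by norm_num)
      push_cast
      linarith
    norm_num at h ⊢
    linarith
  · have h : (58 / 100 : ℝ) ≤ Real.cos (2 * Real.pi * ((4 : ℕ) : ℝ) / (27 : ℕ)) := by
      refine cos_dbl (u := 581777 / 10000000) (c0 := 998307677 / 1000000000)
        (c1 := 198647287 / 200000000) (c2 := 973037231 / 1000000000)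
        (c3 := 178720581 / 200000000) (by positivity) ?_ (by norm_num) (by norm_num)
        (by norm_num) (by norm_num) (by norm_num) (by norm_num) (by norm_num) (by norm_num)
        (by norm_num)
      push_cast
      linarith
    norm_num at h ⊢
    linarith
  · have h : (38 / 100 : ℝ) ≤ Real.cos (2 * Real.pi * ((5 : ℕ) : ℝ) / (27 : ℕ)) := by
      refine cos_dbl (u := 727221 / 10000000) (c0 := 249338937 / 250000000)
        (c1 := 61839811 / 62500000) (c2 := 478985529 / 500000000)
        (c3 := 167083419 / 200000000) (by positivity) ?_ (by norm_num) (by norm_num)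
        (by norm_num) (by norm_num) (by norm_num) (by norm_num) (by norm_num) (by norm_num)
        (by norm_num)
      push_cast
      linarith
    norm_num at h ⊢
    linarith
  · have h : (16 / 100 : ℝ) ≤ Real.cos (2 * Real.pi * ((6 : ℕ) : ℝ) / (27 : ℕ)) := by
      refine cos_dbl (u := 174533 / 2000000) (c0 := 498096139 / 500000000)
        (c1 := 984798109 / 1000000000) (c2 := 93965463 / 100000000)
        (c3 := 765901647 / 1000000000) (by positivity) ?_ (by norm_num) (by norm_num)
        (by norm_num) (by norm_num) (by norm_num) (by norm_num) (by norm_num) (by norm_num)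
        (by norm_num)
      push_cast
      linarith
    norm_num at h ⊢
    linarith
  · have h : (-7 / 100 : ℝ) ≤ Real.cos (2 * Real.pi * ((7 : ℕ) : ℝ) / (27 : ℕ)) := by
      refine cos_dbl (u := 1018109 / 10000000) (c0 := 99481727 / 100000000)
        (c1 := 979322801 / 1000000000) (c2 := 918146297 / 1000000000)
        (c3 := 137197049 / 200000000) (by positivity) ?_ (by norm_num) (by norm_num)
        (by norm_num) (by norm_num) (by norm_num) (by norm_num) (by norm_num) (by norm_num)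
        (by norm_num)
      push_cast
      linarith
    norm_num at h ⊢
    linarith
  · have h : (-30 / 100 : ℝ) ≤ Real.cos (2 * Real.pi * ((8 : ℕ) : ℝ) / (27 : ℕ)) := by
      refine cos_dbl (u := 1163553 / 10000000) (c0 := 496615361 / 500000000)
        (c1 := 486507267 / 500000000) (c2 := 446757283 / 500000000)
        (c3 := 596736559 / 1000000000) (by positivity) ?_ (by norm_num) (by norm_num)
        (by norm_num) (by norm_num) (by norm_num) (by norm_num) (by norm_num) (by norm_num)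
        (by norm_num)
      push_cast
      linarith
    norm_num at h ⊢
    linarith
  · rw [show 2 * Real.pi * ((9 : ℕ) : ℝ) / (27 : ℕ) = Real.pi - Real.pi / 3 by push_cast; ring,
      Real.cos_pi_sub, Real.cos_pi_div_three]
    norm_num
  · have h : (-70 / 100 : ℝ) ≤ Real.cos (2 * Real.pi * ((10 : ℕ) : ℝ) / (27 : ℕ)) := by
      refine cos_dbl (u := 727221 / 5000000) (c0 := 61838937 / 62500000)
        (c1 := 478957857 / 500000000) (c2 := 83520503 / 100000000)
        (c3 := 98783721 / 250000000) (by positivity) ?_ (by norm_num) (by norm_num)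
        (by norm_num) (by norm_num) (by norm_num) (by norm_num) (by norm_num) (by norm_num)
        (by norm_num)
      push_cast
      linarith
    norm_num at h ⊢
    linarith
  · have h : (-85 / 100 : ℝ) ≤ Real.cos (2 * Real.pi * ((11 : ℕ) : ℝ) / (27 : ℕ)) := by
      refine cos_dbl (u := 799943 / 5000000) (c0 := 987201823 / 1000000000)
        (c1 := 474567439 / 500000000) (c2 := 801714033 / 1000000000)
        (c3 := 285490781 / 1000000000) (by positivity) ?_ (by norm_num) (by norm_num)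
        (by norm_num) (by norm_num) (by norm_num) (by norm_num) (by norm_num) (by norm_num)
        (by norm_num)
      push_cast
      linarith
    norm_num at h ⊢
    linarith
  · have h : (-95 / 100 : ℝ) ≤ Real.cos (2 * Real.pi * ((12 : ℕ) : ℝ) / (27 : ℕ)) := by
      refine cos_dbl (u := 174533 / 1000000) (c0 := 196953823 / 200000000)
        (c1 := 939540419 / 1000000000) (c2 := 765472397 / 1000000000)
        (c3 := 171895981 / 1000000000) (by positivity) ?_ (by norm_num) (by norm_num)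
        (by norm_num) (by norm_num) (by norm_num) (by norm_num) (by norm_num) (by norm_num)
        (by norm_num)
      push_cast
      linarith
    norm_num at h ⊢
    linarith
  · have h : (-100 / 100 : ℝ) ≤ Real.cos (2 * Real.pi * ((13 : ℕ) : ℝ) / (27 : ℕ)) := by
      refine cos_dbl (u := 945387 / 5000000) (c0 := 245531217 / 250000000)
        (c1 := 58071157 / 62500000) (c2 := 181649187 / 250000000)
        (c3 := 13971417 / 250000000) (by positivity) ?_ (by norm_num) (by norm_num)
        (by norm_num) (by norm_num) (by norm_num) (by norm_num) (by norm_num) (by norm_num)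
        (by norm_num)
      push_cast
      linarith
    norm_num at h ⊢
    linarith

section
variable {G : Type u} [AddCommGroup G] [Fintype G] [DecidableEq G]

/-- the cell `m = 9` near `2/3` -/
theorem cell_9 {B : Finset G} {χ : AddChar G ℂ} {φ : G →+ ZMod 9}
    (hstd : Std χ φ) (hsurj : Function.Surjective φ) (hmax : IsMaxi B)
    (hbig : fG G B.card < GL.FF B)
    (hfou : (Fintype.card G : ℝ) * (((GL.FF B : ℤ) : ℝ) + 3 * (B.card : ℝ) ^ 2) ≤
      4 * (B.card : ℝ) ^ 3 +
        4 * (hat B χ).re * ((Fintype.card G : ℝ) * B.card - (B.card : ℝ) ^ 2))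
    {t : ℕ} (hb : B.card + t = 6 * Nat.card φ.ker) (ht : 5 * t ≤ Nat.card φ.ker)
    (hslope : fG G (B.card + 1) ≤ fG G B.card + (4 * (Nat.card φ.ker : ℤ) + 5)) : False := by
  have hb' : B.card + t = 2 * 3 * Nat.card φ.ker := by omega
  have h0 : ∀ x ∉ B, (φ x = (0 : ZMod 9) ∨ φ x = -(0 : ZMod 9)) → False := by
    intro x hx hp
    refine near_level (by norm_num) hstd hsurj hmax hbig hfou (K := 3) (t := t) (by norm_num)
      (by norm_num) hb' ht hslope (D := 1000) (a := 935) (r := 5389) (S := 9632) (u := 14)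
      (L := fun j => ([0, 0, 0, 908, 1000, 1000, 908, 0, 0] : List ℤ).getD j.val 0)
      (M := fun j => ([0, 0, 0, 0, 1000, 1000, 0, 0, 0] : List ℤ).getD j.val 0)
      (E := fun j => ([0, 0, 0, 0, 0, 0, 0, 0, 0] : List ℤ).getD j.val 0)
      (w := fun j => ([5389, 4127, 935, -2695, -5065] : List ℤ).getD j.valMinAbs.natAbs 0)
      (by norm_num) (by norm_num) (by norm_num) (by norm_num) (by decide +kernel)
      (by decide +kernel) ?_ (by norm_num) (by norm_num) hx hp
    exact fun j => hw_of (by norm_num) (by norm_num) q9 (by decide +kernel) j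
  have h1 : ∀ x ∉ B, (φ x = (1 : ZMod 9) ∨ φ x = -(1 : ZMod 9)) → False := by
    intro x hx hp
    refine near_level (by norm_num) hstd hsurj hmax hbig hfou (K := 3) (t := t) (by norm_num)
      (by norm_num) hb' ht hslope (D := 1000) (a := 1773) (r := 4453) (S := 10958) (u := 14)
      (L := fun j => ([0, 0, 500, 1000, 979, 1000, 0, 0, 0] : List ℤ).getD j.val 0)
      (M := fun j => ([0, 0, 0, 1000, 1000, 1000, 1000, 0, 0] : List ℤ).getD j.val 0)
      (E := fun j => ([0, 0, 0, 0, 0, 0, 0, 0, 0] : List ℤ).getD j.val 0)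
      (w := fun j => ([4453, 3410, 773, -2227, -4185] : List ℤ).getD j.valMinAbs.natAbs 0)
      (by norm_num) (by norm_num) (by norm_num) (by norm_num) (by decide +kernel)
      (by decide +kernel) ?_ (by norm_num) (by norm_num) hx hp
    exact fun j => hw_of (by norm_num) (by norm_num) q9 (by decide +kernel) j
  have hall : ∀ x, |(φ x).valMinAbs| ≤ ((1 : ℕ) : ℤ) → x ∈ B := by
    intro x hx
    by_contra hxB
    have hcase : ∀ z : ZMod 9, |z.valMinAbs| ≤ ((1 : ℕ) : ℤ) →
        (z = (0 : ZMod 9) ∨ z = -(0 : ZMod 9)) ∨ (z = (1 : ZMod 9) ∨ z = -(1 : ZMod 9)) := by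
      decide +kernel
    rcases hcase _ hx with h | h
    · exact h0 x hxB h
    · exact h1 x hxB h
  have hlpos : 0 < Nat.card φ.ker := Nat.card_pos
  have hn : Fintype.card G = 9 * Nat.card φ.ker := card_ker_mul φ hsurj
  have hBd : Bd G B.card (GL.FF B) := by
    have hd : ∀ d, d ∣ 9 → 3 ≤ d → d < 9 → 9 / d ≤ (d + 1) * ((2 * 1 + 1) / d) + 1 := by
      intro d h1 h2 h3
      interval_cases d <;> first | decide | (exfalso; revert h1; decide)
    refine lay_Bd (J := 1) (by norm_num) (by norm_num) hd φ hsurj hall (k := 3) (s := t)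
      ?_ ?_ (by norm_num) (by norm_num) (by norm_num)
    · omega
    · omega
  rw [Bd_card_iff] at hBd
  exact absurd hbig (not_lt.mpr hBd)

end


section
variable {G : Type u} [AddCommGroup G] [Fintype G] [DecidableEq G]

/-- the cell `m = 21` near `2/3` -/
theorem cell_21 {B : Finset G} {χ : AddChar G ℂ} {φ : G →+ ZMod 21}
    (hstd : Std χ φ) (hsurj : Function.Surjective φ) (hmax : IsMaxi B)
    (hbig : fG G B.card < GL.FF B)
    (hfou : (Fintype.card G : ℝ) * (((GL.FF B : ℤ) : ℝ) + 3 * (B.card : ℝ) ^ 2) ≤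
      4 * (B.card : ℝ) ^ 3 +
        4 * (hat B χ).re * ((Fintype.card G : ℝ) * B.card - (B.card : ℝ) ^ 2))
    {t : ℕ} (hb : B.card + t = 14 * Nat.card φ.ker) (ht : 5 * t ≤ Nat.card φ.ker)
    (hslope : fG G (B.card + 1) ≤ fG G B.card + (4 * (Nat.card φ.ker : ℤ) + 5)) : False := by
  have hb' : B.card + t = 2 * 7 * Nat.card φ.ker := by omega
  have h0 : ∀ x ∉ B, (φ x = (0 : ZMod 21) ∨ φ x = -(0 : ZMod 21)) → False := by
    intro x hx hp
    refine near_level (by norm_num) hstd hsurj hmax hbig hfou (K := 7) (t := t) (by norm_num)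
      (by norm_num) hb' ht hslope (D := 100) (a := 158) (r := 441) (S := 2441) (u := 20)
      (L := fun j => ([0, 0, 0, 0, 0, 32, 66, 97, 100, 91, 100, 100, 91, 100, 97, 66, 32, 0, 0, 0, 0] : List ℤ).getD j.val 0)
      (M := fun j => ([0, 0, 0, 0, 0, 0, 0, 0, 89, 100, 100, 100, 100, 0, 0, 0, 0, 0, 0, 0, 0] : List ℤ).getD j.val 0)
      (E := fun j => ([0, 0, 0, 0, 0, 4, 0, 0, 0, 0, 0, 0, 0, 0, 0, 0, 4, 0, 0, 0, 0] : List ℤ).getD j.val 0)
      (w := fun j => ([441, 418, 361, 269, 158, 26, -102, -221, -331, -406, -441] : List ℤ).getD j.valMinAbs.natAbs 0)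
      (by norm_num) (by norm_num) (by norm_num) (by norm_num) (by decide +kernel)
      (by decide +kernel) ?_ (by norm_num) (by norm_num) hx hp
    exact fun j => hw_of (by norm_num) (by norm_num) q21 (by decide +kernel) j
  have h1 : ∀ x ∉ B, (φ x = (1 : ZMod 21) ∨ φ x = -(1 : ZMod 21)) → False := by
    intro x hx hp
    refine near_level (by norm_num) hstd hsurj hmax hbig hfou (K := 7) (t := t) (by norm_num)
      (by norm_num) hb' ht hslope (D := 100) (a := 144) (r := 404) (S := 2229) (u := 20)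
      (L := fun j => ([0, 0, 0, 0, 0, 59, 61, 100, 57, 100, 74, 100, 57, 66, 45, 59, 0, 0, 0, 0, 0] : List ℤ).getD j.val 0)
      (M := fun j => ([0, 0, 0, 0, 0, 0, 0, 31, 100, 100, 100, 100, 100, 100, 31, 0, 0, 0, 0, 0, 0] : List ℤ).getD j.val 0)
      (E := fun j => ([0, 0, 0, 0, 0, 2, 0, 0, 2, 2, 0, 0, 2, 1, 0, 0, 2, 0, 0, 0, 0] : List ℤ).getD j.val 0)
      (w := fun j => ([404, 383, 331, 246, 145, 24, -93, -202, -303, -372, -404] : List ℤ).getD j.valMinAbs.natAbs 0)
      (by norm_num) (by norm_num) (by norm_num) (by norm_num) (by decide +kernel)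
      (by decide +kernel) ?_ (by norm_num) (by norm_num) hx hp
    exact fun j => hw_of (by norm_num) (by norm_num) q21 (by decide +kernel) j
  have h2 : ∀ x ∉ B, (φ x = (2 : ZMod 21) ∨ φ x = -(2 : ZMod 21)) → False := by
    intro x hx hp
    refine near_level (by norm_num) hstd hsurj hmax hbig hfou (K := 7) (t := t) (by norm_num)
      (by norm_num) hb' ht hslope (D := 100) (a := 180) (r := 356) (S := 2336) (u := 20)
      (L := fun j => ([0, 0, 0, 0, 27, 79, 100, 100, 73, 100, 100, 68, 54, 61, 75, 21, 0, 0, 0, 0, 0] : List ℤ).getD j.val 0)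
      (M := fun j => ([0, 0, 0, 0, 0, 0, 11, 7, 100, 100, 89, 100, 100, 100, 7, 0, 0, 0, 0, 0, 0] : List ℤ).getD j.val 0)
      (E := fun j => ([0, 0, 0, 0, 0, 1, 0, 0, 1, 1, 1, 0, 0, 0, 0, 0, 2, 0, 0, 0, 0] : List ℤ).getD j.val 0)
      (w := fun j => ([356, 338, 291, 217, 128, 21, -82, -178, -267, -328, -356] : List ℤ).getD j.valMinAbs.natAbs 0)
      (by norm_num) (by norm_num) (by norm_num) (by norm_num) (by decide +kernel)
      (by decide +kernel) ?_ (by norm_num) (by norm_num) hx hp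
    exact fun j => hw_of (by norm_num) (by norm_num) q21 (by decide +kernel) j
  have h3 : ∀ x ∉ B, (φ x = (3 : ZMod 21) ∨ φ x = -(3 : ZMod 21)) → False := by
    intro x hx hp
    refine near_level (by norm_num) hstd hsurj hmax hbig hfou (K := 7) (t := t) (by norm_num)
      (by norm_num) hb' ht hslope (D := 100) (a := 219) (r := 323) (S := 2556) (u := 20)
      (L := fun j => ([0, 0, 0, 11, 53, 100, 100, 90, 81, 100, 81, 90, 90, 50, 3, 0, 0, 0, 0, 0, 0] : List ℤ).getD j.val 0)
      (M := fun j => ([0, 0, 0, 0, 0, 0, 23, 100, 100, 100, 100, 100, 68, 100, 100, 16, 0, 0, 0, 0, 0] : List ℤ).getD j.val 0)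
      (E := fun j => ([0, 0, 0, 0, 0, 0, 49, 0, 0, 1, 0, 0, 1, 0, 0, 0, 0, 0, 0, 0, 0] : List ℤ).getD j.val 0)
      (w := fun j => ([323, 306, 264, 197, 116, 19, -75, -162, -243, -298, -323] : List ℤ).getD j.valMinAbs.natAbs 0)
      (by norm_num) (by norm_num) (by norm_num) (by norm_num) (by decide +kernel)
      (by decide +kernel) ?_ (by norm_num) (by norm_num) hx hp
    exact fun j => hw_of (by norm_num) (by norm_num) q21 (by decide +kernel) j
  have hall : ∀ x, |(φ x).valMinAbs| ≤ ((3 : ℕ) : ℤ) → x ∈ B := by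
    intro x hx
    by_contra hxB
    have hcase : ∀ z : ZMod 21, |z.valMinAbs| ≤ ((3 : ℕ) : ℤ) →
        (z = (0 : ZMod 21) ∨ z = -(0 : ZMod 21)) ∨ (z = (1 : ZMod 21) ∨ z = -(1 : ZMod 21)) ∨ (z = (2 : ZMod 21) ∨ z = -(2 : ZMod 21)) ∨ (z = (3 : ZMod 21) ∨ z = -(3 : ZMod 21)) := by
      decide +kernel
    rcases hcase _ hx with h | h | h | h
    · exact h0 x hxB h
    · exact h1 x hxB h
    · exact h2 x hxB h
    · exact h3 x hxB h
  have hlpos : 0 < Nat.card φ.ker := Nat.card_pos
  have hn : Fintype.card G = 21 * Nat.card φ.ker := card_ker_mul φ hsurj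
  have hBd : Bd G B.card (GL.FF B) := by
    have hd : ∀ d, d ∣ 21 → 3 ≤ d → d < 21 → 21 / d ≤ (d + 1) * ((2 * 3 + 1) / d) + 1 := by
      intro d h1 h2 h3
      interval_cases d <;> first | decide | (exfalso; revert h1; decide)
    refine lay_Bd (J := 3) (by norm_num) (by norm_num) hd φ hsurj hall (k := 7) (s := t)
      ?_ ?_ (by norm_num) (by norm_num) (by norm_num)
    · omega
    · omega
  rw [Bd_card_iff] at hBd
  exact absurd hbig (not_lt.mpr hBd)

end


section
variable {G : Type u} [AddCommGroup G] [Fintype G] [DecidableEq G]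

/-- the cell `m = 27` near `2/3` -/
theorem cell_27 {B : Finset G} {χ : AddChar G ℂ} {φ : G →+ ZMod 27}
    (hstd : Std χ φ) (hsurj : Function.Surjective φ) (hmax : IsMaxi B)
    (hbig : fG G B.card < GL.FF B)
    (hfou : (Fintype.card G : ℝ) * (((GL.FF B : ℤ) : ℝ) + 3 * (B.card : ℝ) ^ 2) ≤
      4 * (B.card : ℝ) ^ 3 +
        4 * (hat B χ).re * ((Fintype.card G : ℝ) * B.card - (B.card : ℝ) ^ 2))
    {t : ℕ} (hb : B.card + t = 18 * Nat.card φ.ker) (ht : 5 * t ≤ Nat.card φ.ker)
    (hslope : fG G (B.card + 1) ≤ fG G B.card + (4 * (Nat.card φ.ker : ℤ) + 5)) : False := by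
  have hb' : B.card + t = 2 * 9 * Nat.card φ.ker := by omega
  have h0 : ∀ x ∉ B, (φ x = (0 : ZMod 27) ∨ φ x = -(0 : ZMod 27)) → False := by
    intro x hx hp
    refine near_level (by norm_num) hstd hsurj hmax hbig hfou (K := 9) (t := t) (by norm_num)
      (by norm_num) hb' ht hslope (D := 100) (a := 165) (r := 432) (S := 3161) (u := 21)
      (L := fun j => ([0, 0, 0, 0, 0, 0, 24, 49, 73, 97, 100, 100, 94, 100, 100, 94, 100, 100, 97, 73, 49, 24, 0, 0, 0, 0, 0] : List ℤ).getD j.val 0)
      (M := fun j => ([0, 0, 0, 0, 0, 0, 0, 0, 0, 0, 66, 100, 100, 100, 100, 100, 31, 0, 0, 0, 0, 0, 0, 0, 0, 0, 0] : List ℤ).getD j.val 0)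
      (E := fun j => ([0, 0, 0, 0, 0, 1, 0, 0, 3, 0, 2, 2, 0, 0, 0, 0, 2, 2, 0, 3, 0, 0, 1, 0, 0, 0, 0] : List ℤ).getD j.val 0)
      (w := fun j => ([432, 414, 380, 324, 250, 164, 69, -31, -130, -216, -303, -368, -411, -432] : List ℤ).getD j.valMinAbs.natAbs 0)
      (by norm_num) (by norm_num) (by norm_num) (by norm_num) (by decide +kernel)
      (by decide +kernel) ?_ (by norm_num) (by norm_num) hx hp
    exact fun j => hw_of (by norm_num) (by norm_num) q27 (by decide +kernel) j
  have h1 : ∀ x ∉ B, (φ x = (1 : ZMod 27) ∨ φ x = -(1 : ZMod 27)) → False := by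
    intro x hx hp
    refine near_level (by norm_num) hstd hsurj hmax hbig hfou (K := 9) (t := t) (by norm_num)
      (by norm_num) hb' ht hslope (D := 100) (a := 151) (r := 448) (S := 3118) (u := 21)
      (L := fun j => ([0, 0, 0, 0, 0, 0, 40, 51, 91, 100, 81, 87, 100, 100, 100, 87, 81, 50, 91, 51, 40, 0, 0, 0, 0, 0, 0] : List ℤ).getD j.val 0)
      (M := fun j => ([0, 0, 0, 0, 0, 0, 0, 0, 0, 0, 100, 100, 100, 100, 100, 100, 100, 100, 0, 0, 0, 0, 0, 0, 0, 0, 0] : List ℤ).getD j.val 0)
      (E := fun j => ([0, 0, 0, 0, 0, 0, 0, 1, 2, 0, 3, 0, 3, 0, 0, 3, 0, 3, 0, 2, 1, 0, 0, 0, 0, 0, 0] : List ℤ).getD j.val 0)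
      (w := fun j => ([448, 430, 394, 336, 259, 170, 71, -32, -135, -224, -314, -381, -426, -448] : List ℤ).getD j.valMinAbs.natAbs 0)
      (by norm_num) (by norm_num) (by norm_num) (by norm_num) (by decide +kernel)
      (by decide +kernel) ?_ (by norm_num) (by norm_num) hx hp
    exact fun j => hw_of (by norm_num) (by norm_num) q27 (by decide +kernel) j
  have h2 : ∀ x ∉ B, (φ x = (2 : ZMod 27) ∨ φ x = -(2 : ZMod 27)) → False := by
    intro x hx hp
    refine near_level (by norm_num) hstd hsurj hmax hbig hfou (K := 9) (t := t) (by norm_num)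
      (by norm_num) hb' ht hslope (D := 100) (a := 184) (r := 385) (S := 3152) (u := 21)
      (L := fun j => ([0, 0, 0, 0, 0, 19, 62, 87, 88, 100, 88, 100, 87, 87, 100, 88, 56, 38, 81, 62, 19, 0, 0, 0, 0, 0, 0] : List ℤ).getD j.val 0)
      (M := fun j => ([0, 0, 0, 0, 0, 0, 0, 0, 0, 12, 100, 100, 100, 100, 100, 100, 100, 100, 12, 0, 0, 0, 0, 0, 0, 0, 0] : List ℤ).getD j.val 0)
      (E := fun j => ([0, 0, 0, 0, 0, 0, 0, 0, 0, 0, 2, 0, 0, 0, 0, 0, 0, 2, 0, 0, 0, 0, 0, 0, 0, 0, 0] : List ℤ).getD j.val 0)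
      (w := fun j => ([385, 369, 338, 288, 223, 146, 61, -27, -116, -193, -270, -328, -366, -385] : List ℤ).getD j.valMinAbs.natAbs 0)
      (by norm_num) (by norm_num) (by norm_num) (by norm_num) (by decide +kernel)
      (by decide +kernel) ?_ (by norm_num) (by norm_num) hx hp
    exact fun j => hw_of (by norm_num) (by norm_num) q27 (by decide +kernel) j
  have h3 : ∀ x ∉ B, (φ x = (3 : ZMod 27) ∨ φ x = -(3 : ZMod 27)) → False := by
    intro x hx hp
    refine near_level (by norm_num) hstd hsurj hmax hbig hfou (K := 9) (t := t) (by norm_num)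
      (by norm_num) hb' ht hslope (D := 100) (a := 170) (r := 443) (S := 3329) (u := 21)
      (L := fun j => ([0, 0, 0, 0, 0, 1, 50, 100, 100, 100, 100, 100, 95, 100, 100, 100, 73, 51, 0, 1, 0, 0, 0, 0, 0, 0, 0] : List ℤ).getD j.val 0)
      (M := fun j => ([0, 0, 0, 0, 0, 0, 0, 0, 0, 100, 100, 100, 100, 100, 100, 100, 100, 100, 100, 54, 0, 0, 0, 0, 0, 0, 0] : List ℤ).getD j.val 0)
      (E := fun j => ([0, 0, 0, 0, 0, 0, 0, 2, 101, 0, 0, 0, 1, 13, 13, 1, 1, 0, 0, 1, 0, 0, 0, 0, 0, 0, 0] : List ℤ).getD j.val 0)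
      (w := fun j => ([443, 425, 389, 332, 256, 168, 70, -32, -133, -222, -311, -377, -421, -443] : List ℤ).getD j.valMinAbs.natAbs 0)
      (by norm_num) (by norm_num) (by norm_num) (by norm_num) (by decide +kernel)
      (by decide +kernel) ?_ (by norm_num) (by norm_num) hx hp
    exact fun j => hw_of (by norm_num) (by norm_num) q27 (by decide +kernel) j
  have h4 : ∀ x ∉ B, (φ x = (4 : ZMod 27) ∨ φ x = -(4 : ZMod 27)) → False := by
    intro x hx hp
    refine near_level (by norm_num) hstd hsurj hmax hbig hfou (K := 9) (t := t) (by norm_num)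
      (by norm_num) hb' ht hslope (D := 100) (a := 182) (r := 260) (S := 2695) (u := 21)
      (L := fun j => ([0, 0, 0, 0, 17, 53, 71, 100, 100, 71, 71, 50, 63, 100, 100, 76, 50, 31, 8, 4, 0, 0, 0, 0, 0, 0, 0] : List ℤ).getD j.val 0)
      (M := fun j => ([0, 0, 0, 0, 0, 0, 0, 0, 26, 69, 79, 100, 100, 100, 0, 74, 100, 100, 0, 0, 0, 0, 0, 0, 0, 0, 0] : List ℤ).getD j.val 0)
      (E := fun j => ([0, 0, 0, 0, 0, 0, 0, 1, 0, 0, 1, 3, 3, 0, 0, 3, 3, 2, 0, 0, 1, 0, 0, 0, 0, 0, 0] : List ℤ).getD j.val 0)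
      (w := fun j => ([260, 249, 228, 195, 150, 98, 41, -19, -78, -130, -182, -221, -247, -260] : List ℤ).getD j.valMinAbs.natAbs 0)
      (by norm_num) (by norm_num) (by norm_num) (by norm_num) (by decide +kernel)
      (by decide +kernel) ?_ (by norm_num) (by norm_num) hx hp
    exact fun j => hw_of (by norm_num) (by norm_num) q27 (by decide +kernel) j
  have hall : ∀ x, |(φ x).valMinAbs| ≤ ((4 : ℕ) : ℤ) → x ∈ B := by
    intro x hx
    by_contra hxB
    have hcase : ∀ z : ZMod 27, |z.valMinAbs| ≤ ((4 : ℕ) : ℤ) →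
        (z = (0 : ZMod 27) ∨ z = -(0 : ZMod 27)) ∨ (z = (1 : ZMod 27) ∨ z = -(1 : ZMod 27)) ∨ (z = (2 : ZMod 27) ∨ z = -(2 : ZMod 27)) ∨ (z = (3 : ZMod 27) ∨ z = -(3 : ZMod 27)) ∨ (z = (4 : ZMod 27) ∨ z = -(4 : ZMod 27)) := by
      decide +kernel
    rcases hcase _ hx with h | h | h | h | h
    · exact h0 x hxB h
    · exact h1 x hxB h
    · exact h2 x hxB h
    · exact h3 x hxB h
    · exact h4 x hxB h
  have hlpos : 0 < Nat.card φ.ker := Nat.card_pos
  have hn : Fintype.card G = 27 * Nat.card φ.ker := card_ker_mul φ hsurj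
  have hBd : Bd G B.card (GL.FF B) := by
    have hd : ∀ d, d ∣ 27 → 3 ≤ d → d < 27 → 27 / d ≤ (d + 1) * ((2 * 4 + 1) / d) + 1 := by
      intro d h1 h2 h3
      interval_cases d <;> first | decide | (exfalso; revert h1; decide)
    refine lay_Bd (J := 4) (by norm_num) (by norm_num) hd φ hsurj hall (k := 9) (s := t)
      ?_ ?_ (by norm_num) (by norm_num) (by norm_num)
    · omega
    · omega
  rw [Bd_card_iff] at hBd
  exact absurd hbig (not_lt.mpr hBd)

end

end Pool.Agent.SCH
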