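import Mathlib
import Pool.Agent.Lib_helper60.SCH.SK
import Pool.Agent.Lib_helper25.LB.Slope4
import Pool.Agent.Lib_helper25.LB.Lay3

/-!
# The range `34/55 < b/n ≤ 2/3` for composite exponents
-/

set_option autoImplicit false
set_option linter.unusedSectionVars false

namespace Pool.Agent.SCH

open Finset Pool.Agent.GL Pool.Agent.Lib_helper42.RS Pool.Agent.Lib_helper13.PL

universe u

/-- the lower bound `V ≥ 0.27 a b` -/
def V27Stmt : Prop :=
  ∀ (b F a yB yA y1 y2 rho V s : ℝ),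
    ((6.8 / 11 ≤ b ∧ b ≤ 0.6354 ∧ s = 0.3175 ∧ -0.00182 ≤ F) ∨
      (0.6353 ≤ b ∧ b ≤ 0.66 ∧ s = 0.2126 ∧ -0.00182 ≤ F) ∨
      (0.66 ≤ b ∧ b ≤ 2 / 3 ∧ s = 0.1905 ∧ -0.19048 * (2 / 3 - b) - 0.0004 ≤ F)) →
    a = 1 - b → yB = 3 * (F + 3 * b ^ 2) / (4 * b) - 3 * b ^ 2 → yA = -(b * yB / a) →
    y2 = 3 * a * b → y1 = 0.2 - 1.28 * (b - 0.6182) → rho = 1 / (2 * y1 + y2) →
    V = a * (yA ^ 2 - rho * yA ^ 3) +
      b * (y1 ^ 2 - rho * y1 ^ 3 + (2 * y1 - 3 * rho * y1 ^ 2) * (yB - y1)) →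
    27 / 100 * (a * b) ≤ V

/-- exclusion of characters of order three -/
def O3Stmt : Prop :=
  ∀ (G : Type u) [AddCommGroup G] [Fintype G] [DecidableEq G] (χ : AddChar G ℂ)
    (φ : G →+ ZMod 3), Std χ φ → Function.Surjective φ → ∀ B : Finset G,
    6181 * Fintype.card G ≤ 10000 * B.card → 3 * B.card < 2 * Fintype.card G →
    ((100 * B.card ≤ 66 * Fintype.card G ∧
        -182 * (Fintype.card G : ℤ) ^ 2 ≤ 100000 * GL.FF B) ∨
      (65 * Fintype.card G ≤ 100 * B.card ∧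
        -4 * (Fintype.card G : ℤ) * (2 * Fintype.card G - 3 * B.card) ≤ 63 * GL.FF B)) →
    27 / 100 * (Fintype.card G : ℝ) ^ 2 ≤ 9 * (hat B χ).re ^ 2 + (hat B χ).im ^ 2 → False

section
variable {G : Type u} [AddCommGroup G] [Fintype G] [DecidableEq G]

/-- odd composite, prime to `15`: at least `49` -/
lemma ge_49 {e : ℕ} (h21 : 21 ≤ e) (hodd : Odd e) (h3 : ¬ 3 ∣ e) (h5 : ¬ 5 ∣ e)
    (hp : ¬ e.Prime) : 49 ≤ e := by
  by_contra h
  push Not at h
  interval_cases e <;> first | (exfalso; revert hodd; decide) | (exfalso; revert h5; decide) |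
    (exfalso; revert h3; decide) | (exfalso; revert hp; norm_num)

/-- **the range `34/55 < b/n ≤ 2/3`**, composite exponent `e ≥ 21`, `5 ∤ e` -/
theorem sk_range (hRB : RBStmt) (hV27 : V27Stmt) (hO3 : O3Stmt.{u}) {B : Finset G} {m : ℕ}
    {χ : AddChar G ℂ} {φ : G →+ ZMod m} (ctx : Ctx B χ φ) (hodd : Odd (Fintype.card G))
    (h34 : 34 * Fintype.card G < 55 * B.card) (h3b : 3 * B.card ≤ 2 * Fintype.card G)
    (hfg : fG G B.card ≤ 0) {e : ℕ} [NeZero e] (ψe : G →+ ZMod e)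
    (hψe : Function.Surjective ψe) (he : ∀ g : G, e • g = 0) (hl : 2 ≤ Nat.card ψe.ker)
    (he21 : 21 ≤ e) (h5 : ¬ 5 ∣ e) (hp : ¬ e.Prime) : False := by
  have hn0 : 0 < Fintype.card G := Fintype.card_pos
  have hnR : (0:ℝ) < (Fintype.card G : ℝ) := by exact_mod_cast hn0
  have hnl : Fintype.card G = e * Nat.card ψe.ker := card_ker_mul ψe hψe
  have hodde : Odd e := by
    have h1 := hodd
    rw [hnl] at h1
    exact (Nat.odd_mul.1 h1).1
  obtain ⟨D, hD⟩ : ∃ D, D = fG G (B.card + 1) - fG G B.card := ⟨_, rfl⟩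
  obtain ⟨-, -, d3, d4, d5⟩ := slope_num hodd (b := B.card) (by omega) h3b hfg ctx.triv ψe hψe he
    hl he21 h5 hp hD
  have hDle : fG G (B.card + 1) ≤ fG G B.card + D := by rw [hD]; linarith
  set n : ℕ := Fintype.card G with hn
  -- strict inequality `3 b < 2 n`
  have h3lt : 3 * B.card < 2 * n := by
    rcases Nat.lt_or_ge (3 * B.card) (2 * n) with h | h
    · exact h
    · have heq : 3 * B.card = 2 * n := le_antisymm h3b h
      exact lt_of_three ctx.triv (by omega)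
  -- lower bounds for `F`
  have hbigR : ((fG G B.card : ℤ) : ℝ) < ((GL.FF B : ℤ) : ℝ) := by exact_mod_cast ctx.big
  have hlow := fG_low h3lt ψe hψe (c := 21) he21
  rw [← hn] at hlow
  have hFz : -182 * (n : ℤ) ^ 2 ≤ 100000 * GL.FF B := by
    have h1 := ctx.big
    have h2 : (0:ℤ) ≤ (n:ℤ) ^ 2 := by positivity
    norm_num at hlow
    linarith
  obtain ⟨F, hF⟩ : ∃ F : ℝ, F = ((GL.FF B : ℤ) : ℝ) / (n : ℝ) ^ 2 := ⟨_, rfl⟩
  obtain ⟨b, hb⟩ : ∃ b : ℝ, b = (B.card : ℝ) / (n : ℝ) := ⟨_, rfl⟩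
  have hn2 : (0:ℝ) < (n : ℝ) ^ 2 := by positivity
  have hFl : -0.00182 ≤ F := by
    rw [hF, le_div_iff₀ hn2]
    have h1 : (-182 * (n : ℝ) ^ 2 : ℝ) ≤ 100000 * ((GL.FF B : ℤ) : ℝ) := by exact_mod_cast hFz
    linarith
  have hbl : 6.8 / 11 ≤ b := by
    rw [hb, le_div_iff₀ hnR]
    have h1 : (34 * (n : ℝ) : ℝ) < 55 * (B.card : ℝ) := by exact_mod_cast h34
    linarith
  have hbu : b ≤ 2 / 3 := by
    rw [hb, div_le_iff₀ hnR]
    have h1 : (3 * (B.card : ℝ) : ℝ) ≤ 2 * (n : ℝ) := by exact_mod_cast h3b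
    linarith
  -- the near bound
  have hnear3 : 3 ∣ e → -4 * (n : ℤ) * (2 * n - 3 * B.card) ≤ 63 * GL.FF B := by
    intro h3e
    have h1 := fG_near h3lt ψe hψe h3e
    rw [← hn] at h1
    have h2 := ctx.big
    have h3 : (21 : ℤ) * (Nat.card ψe.ker : ℤ) ≤ n := by
      have : 21 * Nat.card ψe.ker ≤ n := by rw [hnl]; exact Nat.mul_le_mul_right _ he21
      exact_mod_cast this
    have h4 : (0:ℤ) ≤ 2 * n - 3 * B.card := by
      have : (3 * B.card : ℤ) < 2 * n := by exact_mod_cast h3lt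
      linarith
    nlinarith [mul_le_mul_of_nonneg_right h3 h4]
  have hnearF : -0.19048 * (2 / 3 - b) - 0.0004 ≤ F := by
    by_cases h3e : 3 ∣ e
    · have h1 := hnear3 h3e
      have h2 : (-4 * (n : ℝ) * (2 * n - 3 * B.card) : ℝ) ≤ 63 * ((GL.FF B : ℤ) : ℝ) := by
        exact_mod_cast h1
      have h3 : -(4 / 21) * (2 / 3 - b) ≤ F := by
        rw [hF, hb, le_div_iff₀ hn2]
        have e1 : -(4 / 21) * (2 / 3 - (B.card : ℝ) / n) * (n : ℝ) ^ 2 =
            -4 * (n : ℝ) * (2 * n - 3 * B.card) / 63 := by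
          field_simp
          ring
        rw [e1]; linarith
      have h4 : 0 ≤ 2 / 3 - b := by linarith
      nlinarith
    · have h49 := ge_49 he21 hodde h3e h5 hp
      have h1 := fG_low h3lt ψe hψe (c := 49) h49
      rw [← hn] at h1
      have h2 : (-4 * (n : ℝ) ^ 2 : ℝ) ≤ 5 * 49 ^ 2 * ((fG G B.card : ℤ) : ℝ) := by
        exact_mod_cast h1
      have h3 : -0.0004 ≤ F := by
        rw [hF, le_div_iff₀ hn2]
        nlinarith
      nlinarith
  -- the three ranges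
  have hrange : ∃ s : ℝ, (D : ℝ) + 3 ≤ s * (n : ℝ) ∧
      ((6.8 / 11 ≤ b ∧ b ≤ 0.6354 ∧ s = 0.3175 ∧ -0.00182 ≤ F) ∨
      (0.6353 ≤ b ∧ b ≤ 0.66 ∧ s = 0.2126 ∧ -0.00182 ≤ F) ∨
      (0.66 ≤ b ∧ b ≤ 2 / 3 ∧ s = 0.1905 ∧ -0.19048 * (2 / 3 - b) - 0.0004 ≤ F)) := by
    rcases Nat.lt_or_ge (33 * n) (50 * B.card) with h | h
    · refine ⟨0.1905, ?_, Or.inr (Or.inr ⟨?_, hbu, rfl, hnearF⟩)⟩
      · have h1 : (10000 * ((D : ℝ) + 3) : ℝ) ≤ 1905 * (n : ℝ) := by exact_mod_cast d5 h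
        linarith
      · rw [hb, le_div_iff₀ hnR]
        have h1 : (33 * (n : ℝ) : ℝ) < 50 * (B.card : ℝ) := by exact_mod_cast h
        linarith
    · rcases Nat.lt_or_ge (54 * n) (85 * B.card) with h2 | h2
      · have h3 : (10000 * ((D : ℝ) + 3) : ℝ) ≤ 2126 * (n : ℝ) := by exact_mod_cast d4 h2 h
        rcases le_or_gt 0.6353 b with h4 | h4
        · refine ⟨0.2126, by linarith, Or.inr (Or.inl ⟨h4, ?_, rfl, hFl⟩)⟩
          rw [hb, div_le_iff₀ hnR]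
          have h1 : (50 * (B.card : ℝ) : ℝ) ≤ 33 * (n : ℝ) := by exact_mod_cast h
          linarith
        · exact ⟨0.3175, by linarith, Or.inl ⟨hbl, by linarith, rfl, hFl⟩⟩
      · have h3 : (10000 * ((D : ℝ) + 3) : ℝ) ≤ 3175 * (n : ℝ) := by exact_mod_cast d3 h34 h2
        refine ⟨0.3175, by linarith, Or.inl ⟨hbl, ?_, rfl, hFl⟩⟩
        rw [hb, div_le_iff₀ hnR]
        have h1 : (85 * (B.card : ℝ) : ℝ) ≤ 54 * (n : ℝ) := by exact_mod_cast h2
        linarith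
  obtain ⟨s, hs, hdis⟩ := hrange
  obtain ⟨q, ψ, φ', hq3, hqodd, hsurj, hstd, hV, hhole⟩ := hole_SK hRB hodd ctx.maxi hDle hb hF
    hs hdis rfl rfl rfl rfl rfl rfl rfl
  rcases Nat.lt_or_ge q 5 with hq | hq
  · have hq' : q = 3 := by omega
    subst hq'
    have h27 := hV27 b F _ _ _ _ _ _ _ s hdis rfl rfl rfl rfl rfl rfl rfl
    have hab : 0 < (1 - b) * b := mul_pos (by linarith) (by linarith)
    have h1 := le_trans h27 hV
    have h2 := le_of_mul_le_mul_right h1 hab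
    have h3e : 3 ∣ e := by
      obtain ⟨g, hg⟩ := hsurj 1
      have h4 := congrArg φ' (he g)
      rw [map_nsmul, hg, map_zero, nsmul_one] at h4
      exact (ZMod.natCast_eq_zero_iff e 3).mp h4
    refine hO3 G ψ φ' hstd hsurj B ?_ h3lt ?_ ?_
    · rw [← hn]; omega
    · rcases Nat.lt_or_ge (66 * n) (100 * B.card) with h | h
      · right
        exact ⟨by rw [← hn]; omega, hnear3 h3e⟩
      · left
        exact ⟨h, hFz⟩
    · have e1 : 9 * ((hat B ψ).re / (n : ℝ)) ^ 2 + ((hat B ψ).im / (n : ℝ)) ^ 2 =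
          (9 * (hat B ψ).re ^ 2 + (hat B ψ).im ^ 2) / (n : ℝ) ^ 2 := by
        field_simp
      rw [e1, le_div_iff₀ hn2] at h2
      exact h2
  · exact hole_six' ctx hodd (by omega) φ' hsurj (by omega) (hhole hq)

end

end Pool.Agent.SCH
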